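import Mathlib

/-!
Smooth transition function, its derivative and its primitive.
-/

open Set MeasureTheory intervalIntegral
open scoped ContDiff

namespace Pool.Agent.Lib.MP_bfb34b_an

noncomputable section

/-- The derivative of the smooth transition function. -/
def bump : ℝ → ℝ := deriv Real.smoothTransition

/-- The primitive of the smooth transition function. -/
def prim (x : ℝ) : ℝ := ∫ t in (0 : ℝ)..x, Real.smoothTransition t

lemma chi_contDiff : ContDiff ℝ ∞ Real.smoothTransition := by
  exact_mod_cast (Real.smoothTransition.contDiff (n := ⊤))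

lemma chi_hasDerivAt (x : ℝ) : HasDerivAt Real.smoothTransition (bump x) x :=
  ((chi_contDiff.differentiable (by simp)) x).hasDerivAt

lemma bump_contDiff : ContDiff ℝ ∞ bump := (contDiff_infty_iff_deriv.1 chi_contDiff).2

lemma bump_continuous : Continuous bump := bump_contDiff.continuous

lemma chi_continuous : Continuous Real.smoothTransition := chi_contDiff.continuous

lemma bump_nonneg (x : ℝ) : 0 ≤ bump x := Real.smoothTransition.monotone.deriv_nonneg

lemma bump_of_nonpos {x : ℝ} (hx : x ≤ 0) : bump x = 0 := by
  have h1 : ∀ y ∈ Iio (0 : ℝ), bump y = 0 := by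
    intro y hy
    have : Real.smoothTransition =ᶠ[nhds y] fun _ => (0 : ℝ) := by
      filter_upwards [Iio_mem_nhds hy] with z hz
      exact Real.smoothTransition.zero_of_nonpos (le_of_lt hz)
    have h2 := this.deriv_eq
    simpa [bump] using h2
  have h3 : IsClosed {y | bump y = 0} := isClosed_eq bump_continuous continuous_const
  have h4 : closure (Iio (0 : ℝ)) ⊆ {y | bump y = 0} := closure_minimal h1 h3
  rw [closure_Iio] at h4
  exact h4 hx

lemma bump_of_one_le {x : ℝ} (hx : 1 ≤ x) : bump x = 0 := by
  have h1 : ∀ y ∈ Ioi (1 : ℝ), bump y = 0 := by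
    intro y hy
    have : Real.smoothTransition =ᶠ[nhds y] fun _ => (1 : ℝ) := by
      filter_upwards [Ioi_mem_nhds hy] with z hz
      exact Real.smoothTransition.one_of_one_le (le_of_lt hz)
    have h2 := this.deriv_eq
    simpa [bump] using h2
  have h3 : IsClosed {y | bump y = 0} := isClosed_eq bump_continuous continuous_const
  have h4 : closure (Ioi (1 : ℝ)) ⊆ {y | bump y = 0} := closure_minimal h1 h3
  rw [closure_Ioi] at h4
  exact h4 hx

lemma chi_symm (x : ℝ) : Real.smoothTransition (1 - x) = 1 - Real.smoothTransition x := by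
  have h := (Real.smoothTransition.pos_denom x).ne'
  simp only [Real.smoothTransition]
  rw [show 1 - (1 - x) = x by ring]
  rw [eq_sub_iff_add_eq, add_comm (expNegInvGlue (1 - x)) (expNegInvGlue x), ← add_div,
    add_comm (expNegInvGlue (1 - x)) (expNegInvGlue x), div_self h]

lemma prim_hasDerivAt (x : ℝ) : HasDerivAt prim (Real.smoothTransition x) x :=
  intervalIntegral.integral_hasDerivAt_right (chi_continuous.intervalIntegrable _ _)
    (chi_continuous.stronglyMeasurableAtFilter _ _) chi_continuous.continuousAt

lemma prim_contDiff : ContDiff ℝ ∞ prim := by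
  rw [contDiff_infty_iff_deriv]
  refine ⟨fun x => (prim_hasDerivAt x).differentiableAt, ?_⟩
  have : deriv prim = Real.smoothTransition := funext fun x => (prim_hasDerivAt x).deriv
  rw [this]
  exact chi_contDiff

lemma prim_of_nonpos {x : ℝ} (hx : x ≤ 0) : prim x = 0 := by
  rw [prim, intervalIntegral.integral_symm]
  rw [intervalIntegral.integral_congr (g := fun _ => (0 : ℝ))]
  · simp
  · intro t ht
    rw [uIcc_of_le hx] at ht
    exact Real.smoothTransition.zero_of_nonpos ht.2

lemma prim_nonneg (x : ℝ) : 0 ≤ prim x := by
  rcases le_total x 0 with h | h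
  · rw [prim_of_nonpos h]
  · exact intervalIntegral.integral_nonneg h fun t _ => Real.smoothTransition.nonneg t

lemma prim_one : prim 1 = 1 / 2 := by
  have h1 : (∫ t in (0 : ℝ)..1, Real.smoothTransition (1 - t)) = prim 1 := by
    rw [intervalIntegral.integral_comp_sub_left (fun t => Real.smoothTransition t) 1]
    simp [prim]
  have h2 : (∫ t in (0 : ℝ)..1, Real.smoothTransition (1 - t)) = 1 - prim 1 := by
    simp_rw [chi_symm]
    rw [intervalIntegral.integral_sub (by simp) (chi_continuous.intervalIntegrable _ _)]
    simp [prim]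
  linarith

lemma prim_of_one_le {x : ℝ} (hx : 1 ≤ x) : prim x = x - 1 / 2 := by
  have h1 : prim x = prim 1 + ∫ t in (1 : ℝ)..x, Real.smoothTransition t := by
    rw [prim, prim, intervalIntegral.integral_add_adjacent_intervals
      (chi_continuous.intervalIntegrable _ _) (chi_continuous.intervalIntegrable _ _)]
  have h2 : ∫ t in (1 : ℝ)..x, Real.smoothTransition t = ∫ t in (1 : ℝ)..x, (1 : ℝ) := by
    apply intervalIntegral.integral_congr
    intro t ht
    rw [uIcc_of_le hx] at ht
    exact Real.smoothTransition.one_of_one_le ht.1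
  rw [h1, h2, prim_one]
  simp
  ring

lemma prim_le {x : ℝ} (hx : 0 ≤ x) : prim x ≤ x := by
  have : prim x ≤ ∫ t in (0 : ℝ)..x, (1 : ℝ) := by
    apply intervalIntegral.integral_mono_on hx (chi_continuous.intervalIntegrable _ _) (by simp)
    intro t _
    exact Real.smoothTransition.le_one t
  simpa using this

lemma le_prim (x : ℝ) : x - 1 / 2 ≤ prim x := by
  rcases le_total x 1 with h | h
  · have h1 : prim x + ∫ t in x..(1 : ℝ), Real.smoothTransition t = prim 1 := by
      rw [prim, prim, intervalIntegral.integral_add_adjacent_intervals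
        (chi_continuous.intervalIntegrable _ _) (chi_continuous.intervalIntegrable _ _)]
    have h2 : ∫ t in x..(1 : ℝ), Real.smoothTransition t ≤ ∫ t in x..(1 : ℝ), (1 : ℝ) := by
      apply intervalIntegral.integral_mono_on h (chi_continuous.intervalIntegrable _ _) (by simp)
      intro t _
      exact Real.smoothTransition.le_one t
    rw [prim_one] at h1
    simp at h2
    linarith
  · rw [prim_of_one_le h]

/-- The integral of a rescaled bump. -/
lemma integral_bump_scaled (c s x y : ℝ) :
    ∫ t in x..y, bump ((t - c) / s) / s =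
      Real.smoothTransition ((y - c) / s) - Real.smoothTransition ((x - c) / s) := by
  apply intervalIntegral.integral_eq_sub_of_hasDerivAt
  · intro t _
    have h1 : HasDerivAt (fun t : ℝ => (t - c) / s) (1 / s) t :=
      ((hasDerivAt_id t).sub_const c).div_const s
    have h2 := (chi_hasDerivAt ((t - c) / s)).comp t h1
    rw [show bump ((t - c) / s) / s = bump ((t - c) / s) * (1 / s) by ring]
    exact h2
  · apply Continuous.intervalIntegrable
    exact (bump_continuous.comp (by fun_prop)).div_const s

end

end Pool.Agent.Lib.MP_bfb34b_an
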