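import Mathlib
import Pool.Agent.Lib.MP_bfb34b_an.Bumps

/-!
The explicit functions of the counterexample.
-/

open Set MeasureTheory intervalIntegral
open scoped ContDiff

namespace Pool.Agent.Lib.MP_bfb34b_an

noncomputable section

/-- Left end point. -/
def xa : ℝ := -(128 * 10 ^ 24 + 1 + 1023 * 10 ^ 18)
/-- Left end of the second patch. -/
def xo : ℝ := -(128 * 10 ^ 24 + 1)
/-- Width of the sink. -/
def hh : ℝ := 32 / 10 ^ 24

/-- The four bumps. -/
def b1 (x : ℝ) : ℝ := bump ((x - xa) / 1) / 1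
/-- Second bump. -/
def b0 (x : ℝ) : ℝ := bump ((x - xo) / 1) / 1
/-- Sink bump. -/
def bz (x : ℝ) : ℝ := bump ((x - 0) / hh) / hh
/-- Right bump. -/
def bA (x : ℝ) : ℝ := bump ((x - 63) / 1) / 1

/-- The solution at exponent `1/4` and `d = 1`. -/
def wb (x : ℝ) : ℝ :=
  (2048 * 10 ^ 24 + 1 / 128 + 1 / 10 ^ 24) - 2 * 10 ^ 6 * prim (x - xa)
    + (2 * 10 ^ 6 - 1 / 64) * prim (x - xo) + 1 / 10 ^ 24 * prim (x / hh)
    - 1 / 64 * prim (x - 63)

/-- Its derivative. -/
def wb1 (x : ℝ) : ℝ :=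
  - (2 * 10 ^ 6) * Real.smoothTransition (x - xa)
    + (2 * 10 ^ 6 - 1 / 64) * Real.smoothTransition (x - xo)
    + 1 / 32 * Real.smoothTransition (x / hh)
    - 1 / 64 * Real.smoothTransition (x - 63)

/-- Its second derivative. -/
def wb2 (x : ℝ) : ℝ :=
  - (2 * 10 ^ 6) * b1 x + (2 * 10 ^ 6 - 1 / 64) * b0 x + 1 / 32 * bz x - 1 / 64 * bA x

/-- The weight sigma. -/
def sg (x : ℝ) : ℝ :=
  4 * 10 ^ 6 * b1 x + (2 * 10 ^ 6 - 1 / 64) * b0 x + 1 / (32 * 10 ^ 48) * bz x + 4 * bA x
    + 1 / 10 ^ 200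

/-- The weight tau. -/
def ta (x : ℝ) : ℝ :=
  2 * 10 ^ 6 * b1 x + (4 * 10 ^ 6 - 1 / 32) * b0 x + (1 / (32 * 10 ^ 48) + 1 / 32) * bz x
    + (4 - 1 / 64) * bA x + 1 / 10 ^ 200

/-- Fourth root of `q = K / P`. -/
def pf (x : ℝ) : ℝ := Real.sqrt (Real.sqrt (wb x * sg x / ta x))

/-- The dispersal strategy. -/
def Pf (x : ℝ) : ℝ := sg x / (pf x * wb x)

/-- The carrying capacity. -/
def Kf (x : ℝ) : ℝ := pf x ^ 4 * Pf x

lemma hh_pos : 0 < hh := by norm_num [hh]

lemma b1_nonneg (x : ℝ) : 0 ≤ b1 x := by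
  have := bump_nonneg ((x - xa) / 1); simp only [b1]; positivity
lemma b0_nonneg (x : ℝ) : 0 ≤ b0 x := by
  have := bump_nonneg ((x - xo) / 1); simp only [b0]; positivity
lemma bz_nonneg (x : ℝ) : 0 ≤ bz x := by
  have := bump_nonneg ((x - 0) / hh); have := hh_pos; simp only [bz]; positivity
lemma bA_nonneg (x : ℝ) : 0 ≤ bA x := by
  have := bump_nonneg ((x - 63) / 1); simp only [bA]; positivity

lemma b1_zero_l {x : ℝ} (h : x ≤ xa) : b1 x = 0 := by
  simp only [b1]; rw [bump_of_nonpos (by linarith)]; simp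
lemma b1_zero_r {x : ℝ} (h : xa + 1 ≤ x) : b1 x = 0 := by
  simp only [b1]; rw [bump_of_one_le (by linarith)]; simp
lemma b0_zero_l {x : ℝ} (h : x ≤ xo) : b0 x = 0 := by
  simp only [b0]; rw [bump_of_nonpos (by linarith)]; simp
lemma b0_zero_r {x : ℝ} (h : xo + 1 ≤ x) : b0 x = 0 := by
  simp only [b0]; rw [bump_of_one_le (by linarith)]; simp
lemma bz_zero_l {x : ℝ} (h : x ≤ 0) : bz x = 0 := by
  simp only [bz]
  rw [bump_of_nonpos (div_nonpos_of_nonpos_of_nonneg (by linarith) hh_pos.le)]; simp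
lemma bz_zero_r {x : ℝ} (h : hh ≤ x) : bz x = 0 := by
  simp only [bz]
  rw [bump_of_one_le ((one_le_div hh_pos).2 (by linarith))]; simp
lemma bA_zero_l {x : ℝ} (h : x ≤ 63) : bA x = 0 := by
  simp only [bA]; rw [bump_of_nonpos (by linarith)]; simp
lemma bA_zero_r {x : ℝ} (h : 64 ≤ x) : bA x = 0 := by
  simp only [bA]; rw [bump_of_one_le (by linarith)]; simp

lemma b1_contDiff : ContDiff ℝ ∞ b1 := by
  unfold b1; exact (bump_contDiff.comp (by fun_prop)).div_const _
lemma b0_contDiff : ContDiff ℝ ∞ b0 := by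
  unfold b0; exact (bump_contDiff.comp (by fun_prop)).div_const _
lemma bz_contDiff : ContDiff ℝ ∞ bz := by
  unfold bz; exact (bump_contDiff.comp (by fun_prop)).div_const _
lemma bA_contDiff : ContDiff ℝ ∞ bA := by
  unfold bA; exact (bump_contDiff.comp (by fun_prop)).div_const _

lemma sg_contDiff : ContDiff ℝ ∞ sg := by
  unfold sg
  exact ((((contDiff_const.mul b1_contDiff).add (contDiff_const.mul b0_contDiff)).add
    (contDiff_const.mul bz_contDiff)).add (contDiff_const.mul bA_contDiff)).add contDiff_const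

lemma ta_contDiff : ContDiff ℝ ∞ ta := by
  unfold ta
  exact ((((contDiff_const.mul b1_contDiff).add (contDiff_const.mul b0_contDiff)).add
    (contDiff_const.mul bz_contDiff)).add (contDiff_const.mul bA_contDiff)).add contDiff_const

lemma wb_contDiff : ContDiff ℝ ∞ wb := by
  unfold wb
  have h1 : ContDiff ℝ ∞ fun x : ℝ => prim (x - xa) := prim_contDiff.comp (by fun_prop)
  have h2 : ContDiff ℝ ∞ fun x : ℝ => prim (x - xo) := prim_contDiff.comp (by fun_prop)
  have h3 : ContDiff ℝ ∞ fun x : ℝ => prim (x / hh) := prim_contDiff.comp (by fun_prop)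
  have h4 : ContDiff ℝ ∞ fun x : ℝ => prim (x - 63) := prim_contDiff.comp (by fun_prop)
  exact (((contDiff_const.sub (contDiff_const.mul h1)).add (contDiff_const.mul h2)).add
    (contDiff_const.mul h3)).sub (contDiff_const.mul h4)

lemma wb_hasDerivAt (x : ℝ) : HasDerivAt wb (wb1 x) x := by
  have h1 : HasDerivAt (fun x : ℝ => prim (x - xa)) (Real.smoothTransition (x - xa)) x :=
    (prim_hasDerivAt (x - xa)).comp_sub_const x xa
  have h2 : HasDerivAt (fun x : ℝ => prim (x - xo)) (Real.smoothTransition (x - xo)) x :=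
    (prim_hasDerivAt (x - xo)).comp_sub_const x xo
  have h3 : HasDerivAt (fun x : ℝ => prim (x / hh)) (Real.smoothTransition (x / hh) * (1 / hh)) x :=
    HasDerivAt.comp (h₂ := prim) (h := fun x : ℝ => x / hh) x (prim_hasDerivAt (x / hh))
      ((hasDerivAt_id x).div_const hh)
  have h4 : HasDerivAt (fun x : ℝ => prim (x - 63)) (Real.smoothTransition (x - 63)) x :=
    (prim_hasDerivAt (x - 63)).comp_sub_const x 63
  have h5 := ((((h1.const_mul (2 * 10 ^ 6)).const_sub
    (2048 * 10 ^ 24 + 1 / 128 + 1 / 10 ^ 24)).add (h2.const_mul (2 * 10 ^ 6 - 1 / 64))).add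
    (h3.const_mul (1 / 10 ^ 24))).sub (h4.const_mul (1 / 64))
  refine HasDerivAt.congr_deriv (f := wb) h5 ?_
  rw [wb1, hh]
  ring

lemma wb1_hasDerivAt (x : ℝ) : HasDerivAt wb1 (wb2 x) x := by
  have h1 : HasDerivAt (fun x : ℝ => Real.smoothTransition (x - xa)) (b1 x) x := by
    have := (chi_hasDerivAt (x - xa)).comp_sub_const x xa
    simpa only [b1, div_one] using this
  have h2 : HasDerivAt (fun x : ℝ => Real.smoothTransition (x - xo)) (b0 x) x := by
    have := (chi_hasDerivAt (x - xo)).comp_sub_const x xo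
    simpa only [b0, div_one] using this
  have h3 : HasDerivAt (fun x : ℝ => Real.smoothTransition (x / hh)) (bz x) x := by
    have := HasDerivAt.comp (h₂ := Real.smoothTransition) (h := fun x : ℝ => x / hh) x
      (chi_hasDerivAt (x / hh)) ((hasDerivAt_id x).div_const hh)
    refine HasDerivAt.congr_deriv (f := fun x : ℝ => Real.smoothTransition (x / hh)) this ?_
    rw [bz, sub_zero]
    ring
  have h4 : HasDerivAt (fun x : ℝ => Real.smoothTransition (x - 63)) (bA x) x := by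
    have := (chi_hasDerivAt (x - 63)).comp_sub_const x 63
    simpa only [bA, div_one] using this
  exact (((h1.const_mul (- (2 * 10 ^ 6))).add (h2.const_mul (2 * 10 ^ 6 - 1 / 64))).add
    (h3.const_mul (1 / 32))).sub (h4.const_mul (1 / 64))

lemma ta_eq (x : ℝ) : ta x = sg x + wb2 x := by
  simp only [ta, sg, wb2]; ring

lemma wb1_left : wb1 xa = 0 := by
  simp only [wb1]
  rw [Real.smoothTransition.zero_of_nonpos (by linarith : xa - xa ≤ 0),
    Real.smoothTransition.zero_of_nonpos (by norm_num [xa, xo] : xa - xo ≤ 0),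
    Real.smoothTransition.zero_of_nonpos (div_nonpos_of_nonpos_of_nonneg
      (by norm_num [xa]) hh_pos.le),
    Real.smoothTransition.zero_of_nonpos (by norm_num [xa])]
  ring

lemma wb1_right : wb1 64 = 0 := by
  simp only [wb1]
  rw [Real.smoothTransition.one_of_one_le (by norm_num [xa]),
    Real.smoothTransition.one_of_one_le (by norm_num [xo]),
    Real.smoothTransition.one_of_one_le (by norm_num [hh]),
    Real.smoothTransition.one_of_one_le (by norm_num)]
  ring

lemma sg_pos (x : ℝ) : 0 < sg x := by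
  have h1 := b1_nonneg x
  have h2 := b0_nonneg x
  have h3 := bz_nonneg x
  have h4 := bA_nonneg x
  have h5 : (0 : ℝ) ≤ 2 * 10 ^ 6 - 1 / 64 := by norm_num
  simp only [sg]
  positivity

lemma ta_pos (x : ℝ) : 0 < ta x := by
  have h1 := b1_nonneg x
  have h2 := b0_nonneg x
  have h3 := bz_nonneg x
  have h4 := bA_nonneg x
  have h5 : (0 : ℝ) ≤ 4 * 10 ^ 6 - 1 / 32 := by norm_num
  have h6 : (0 : ℝ) ≤ 4 - 1 / 64 := by norm_num
  simp only [ta]
  positivity

end

end Pool.Agent.Lib.MP_bfb34b_an
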