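import Mathlib
import Pool.Agent.Lib.MP_bfb34b_an.Construct

/-!
Pointwise estimates for the functions of the counterexample.
-/

open Set MeasureTheory intervalIntegral
open scoped ContDiff

namespace Pool.Agent.Lib.MP_bfb34b_an

noncomputable section

lemma wb_R0 {x : ℝ} (hx : x ≤ xa) : wb x = 2048 * 10 ^ 24 + 1 / 128 + 1 / 10 ^ 24 := by
  have hxa : x ≤ xo := by
    have : xa ≤ xo := by norm_num [xa, xo]
    linarith
  have hx0 : x ≤ 0 := by
    have : xo ≤ 0 := by norm_num [xo]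
    linarith
  simp only [wb]
  rw [prim_of_nonpos (by linarith : x - xa ≤ 0), prim_of_nonpos (by linarith : x - xo ≤ 0),
    prim_of_nonpos (div_nonpos_of_nonpos_of_nonneg hx0 hh_pos.le),
    prim_of_nonpos (by linarith : x - 63 ≤ 0)]
  ring

lemma wb_R1 {x : ℝ} (hx : xa ≤ x) (hx' : x ≤ xa + 1) :
    2048 * 10 ^ 24 - 2 * 10 ^ 6 ≤ wb x ∧ wb x ≤ 2048 * 10 ^ 24 + 1 := by
  have hxa : x ≤ xo := by
    have : xa + 1 ≤ xo := by norm_num [xa, xo]
    linarith
  have hx0 : x ≤ 0 := by
    have : xo ≤ 0 := by norm_num [xo]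
    linarith
  have h1 := prim_nonneg (x - xa)
  have h2 : prim (x - xa) ≤ x - xa := prim_le (by linarith)
  simp only [wb]
  rw [prim_of_nonpos (by linarith : x - xo ≤ 0),
    prim_of_nonpos (div_nonpos_of_nonpos_of_nonneg hx0 hh_pos.le),
    prim_of_nonpos (by linarith : x - 63 ≤ 0)]
  constructor
  · norm_num
    linarith
  · norm_num
    linarith

lemma wb_R2 {x : ℝ} (hx : xa + 1 ≤ x) (hx' : x ≤ xo) :
    2 * 10 ^ 24 ≤ wb x ∧ wb x ≤ 2048 * 10 ^ 24 + 1 := by
  have hx0 : x ≤ 0 := by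
    have : xo ≤ 0 := by norm_num [xo]
    linarith
  simp only [wb]
  rw [prim_of_one_le (by linarith : 1 ≤ x - xa), prim_of_nonpos (by linarith : x - xo ≤ 0),
    prim_of_nonpos (div_nonpos_of_nonpos_of_nonneg hx0 hh_pos.le),
    prim_of_nonpos (by linarith : x - 63 ≤ 0)]
  simp only [xa, xo] at *
  constructor
  · norm_num at *
    linarith
  · norm_num at *
    linarith

lemma wb_R3 {x : ℝ} (hx : xo ≤ x) (hx' : x ≤ xo + 1) :
    2 * 10 ^ 24 ≤ wb x ∧ wb x ≤ 2 * 10 ^ 24 + 2 * 10 ^ 6 := by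
  have hxa : xa + 1 ≤ x := by
    have : xa + 1 ≤ xo := by norm_num [xa, xo]
    linarith
  have hx0 : x ≤ 0 := by
    have : xo + 1 ≤ 0 := by norm_num [xo]
    linarith
  have h1 := le_prim (x - xo)
  have h2 : prim (x - xo) ≤ x - xo := prim_le (by linarith)
  simp only [wb]
  rw [prim_of_one_le (by linarith : 1 ≤ x - xa),
    prim_of_nonpos (div_nonpos_of_nonpos_of_nonneg hx0 hh_pos.le),
    prim_of_nonpos (by linarith : x - 63 ≤ 0)]
  simp only [xa, xo] at *
  constructor
  · norm_num at *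
    linarith
  · norm_num at *
    linarith

lemma wb_R4 {x : ℝ} (hx : xo + 1 ≤ x) (hx' : x ≤ 0) :
    wb x = 1 / 10 ^ 24 - x / 64 := by
  have hxa : xa + 1 ≤ x := by
    have : xa ≤ xo := by norm_num [xa, xo]
    linarith
  simp only [wb]
  rw [prim_of_one_le (by linarith : 1 ≤ x - xa), prim_of_one_le (by linarith : 1 ≤ x - xo),
    prim_of_nonpos (div_nonpos_of_nonpos_of_nonneg hx' hh_pos.le),
    prim_of_nonpos (by linarith : x - 63 ≤ 0)]
  simp only [xa, xo]
  ring

lemma wb_R5 {x : ℝ} (hx : 0 ≤ x) (hx' : x ≤ hh) :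
    1 / (2 * 10 ^ 24) ≤ wb x ∧ wb x ≤ 3 / (2 * 10 ^ 24) := by
  have hxo : xo + 1 ≤ x := by
    have : xo + 1 ≤ 0 := by norm_num [xo]
    linarith
  have hxa : xa + 1 ≤ x := by
    have : xa ≤ xo := by norm_num [xa, xo]
    linarith
  have h63 : x ≤ 63 := by
    have : hh ≤ 63 := by norm_num [hh]
    linarith
  have h1 := prim_nonneg (x / hh)
  have h2 : prim (x / hh) ≤ x / hh := prim_le (div_nonneg hx hh_pos.le)
  simp only [wb]
  rw [prim_of_one_le (by linarith : 1 ≤ x - xa), prim_of_one_le (by linarith : 1 ≤ x - xo),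
    prim_of_nonpos (by linarith : x - 63 ≤ 0)]
  simp only [xa, xo, hh] at *
  constructor
  · norm_num at *
    linarith
  · norm_num at *
    linarith

lemma wb_R6 {x : ℝ} (hx : hh ≤ x) (hx' : x ≤ 63) :
    wb x = 1 / (2 * 10 ^ 24) + x / 64 := by
  have hx0 : 0 ≤ x := hh_pos.le.trans hx
  have hxo : xo + 1 ≤ x := by
    have : xo + 1 ≤ 0 := by norm_num [xo]
    linarith
  have hxa : xa + 1 ≤ x := by
    have : xa ≤ xo := by norm_num [xa, xo]
    linarith
  simp only [wb]
  rw [prim_of_one_le (by linarith : 1 ≤ x - xa), prim_of_one_le (by linarith : 1 ≤ x - xo),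
    prim_of_one_le ((one_le_div hh_pos).2 hx),
    prim_of_nonpos (by linarith : x - 63 ≤ 0)]
  simp only [xa, xo, hh]
  ring

lemma wb_R7 {x : ℝ} (hx : 63 ≤ x) (_ : x ≤ 64) :
    63 / 64 ≤ wb x ∧ wb x ≤ 1 := by
  have hhx : hh ≤ x := by
    have : hh ≤ 63 := by norm_num [hh]
    linarith
  have hxo : xo + 1 ≤ x := by
    have : xo + 1 ≤ 0 := by norm_num [xo]
    linarith
  have hxa : xa + 1 ≤ x := by
    have : xa ≤ xo := by norm_num [xa, xo]
    linarith
  have h1 := le_prim (x - 63)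
  have h2 : prim (x - 63) ≤ x - 63 := prim_le (by linarith)
  simp only [wb]
  rw [prim_of_one_le (by linarith : 1 ≤ x - xa), prim_of_one_le (by linarith : 1 ≤ x - xo),
    prim_of_one_le ((one_le_div hh_pos).2 hhx)]
  simp only [xa, xo, hh] at *
  constructor
  · norm_num at *
    linarith
  · norm_num at *
    linarith

lemma wb_R8 {x : ℝ} (hx : 64 ≤ x) :
    63 / 64 ≤ wb x ∧ wb x ≤ 1 := by
  have hhx : hh ≤ x := by
    have : hh ≤ 63 := by norm_num [hh]
    linarith
  have hxo : xo + 1 ≤ x := by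
    have : xo + 1 ≤ 0 := by norm_num [xo]
    linarith
  have hxa : xa + 1 ≤ x := by
    have : xa ≤ xo := by norm_num [xa, xo]
    linarith
  simp only [wb]
  rw [prim_of_one_le (by linarith : 1 ≤ x - xa), prim_of_one_le (by linarith : 1 ≤ x - xo),
    prim_of_one_le ((one_le_div hh_pos).2 hhx), prim_of_one_le (by linarith : 1 ≤ x - 63)]
  simp only [xa, xo, hh] at *
  constructor
  · norm_num at *
    linarith
  · norm_num at *
    linarith

/-- Global bounds. -/
lemma wb_lower (x : ℝ) : 1 / (2 * 10 ^ 24) ≤ wb x := by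
  rcases le_total x xa with h | h
  · rw [wb_R0 h]; norm_num
  rcases le_total x (xa + 1) with h1 | h1
  · have := (wb_R1 h h1).1
    norm_num at *; linarith
  rcases le_total x xo with h2 | h2
  · have := (wb_R2 h1 h2).1
    norm_num at *; linarith
  rcases le_total x (xo + 1) with h3 | h3
  · have := (wb_R3 h2 h3).1
    norm_num at *; linarith
  rcases le_total x 0 with h4 | h4
  · rw [wb_R4 h3 h4]
    norm_num at *; linarith
  rcases le_total x hh with h5 | h5
  · exact (wb_R5 h4 h5).1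
  rcases le_total x 63 with h6 | h6
  · rw [wb_R6 h5 h6]
    linarith
  rcases le_total x 64 with h7 | h7
  · have := (wb_R7 h6 h7).1
    norm_num at *; linarith
  · have := (wb_R8 h7).1
    norm_num at *; linarith

lemma wb_pos (x : ℝ) : 0 < wb x := lt_of_lt_of_le (by norm_num) (wb_lower x)

lemma wb_le_one {x : ℝ} (hx : -1 ≤ x) : wb x ≤ 1 := by
  have h3 : xo + 1 ≤ x := by
    have : xo + 1 ≤ -1 := by norm_num [xo]
    linarith
  rcases le_total x 0 with h4 | h4
  · rw [wb_R4 h3 h4]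
    norm_num at *; linarith
  rcases le_total x hh with h5 | h5
  · have := (wb_R5 h4 h5).2
    norm_num at *; linarith
  rcases le_total x 63 with h6 | h6
  · rw [wb_R6 h5 h6]
    norm_num at *; linarith
  rcases le_total x 64 with h7 | h7
  · exact (wb_R7 h6 h7).2
  · exact (wb_R8 h7).2

lemma wb_upper (x : ℝ) : wb x ≤ 2048 * 10 ^ 24 + 1 := by
  rcases le_total x xa with h | h
  · rw [wb_R0 h]; norm_num
  rcases le_total x (xa + 1) with h1 | h1
  · exact (wb_R1 h h1).2
  rcases le_total x xo with h2 | h2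
  · exact (wb_R2 h1 h2).2
  rcases le_total x (xo + 1) with h3 | h3
  · have := (wb_R3 h2 h3).2
    norm_num at *; linarith
  rcases le_total x 0 with h4 | h4
  · rw [wb_R4 h3 h4]
    simp only [xo] at h3
    norm_num at *; linarith
  have := wb_le_one (x := x) (by linarith)
  norm_num at *; linarith

lemma wb_G5 {x : ℝ} (hx : xo ≤ x) : wb x ≤ 2 * 10 ^ 24 + 2 * 10 ^ 6 := by
  rcases le_total x (xo + 1) with h3 | h3
  · exact (wb_R3 hx h3).2
  rcases le_total x 0 with h4 | h4
  · rw [wb_R4 h3 h4]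
    simp only [xo] at h3
    norm_num at *; linarith
  have := wb_le_one (x := x) (by linarith)
  norm_num at *; linarith

lemma wb_G3 {x : ℝ} (hx : x ≤ xo + 1) : 2 * 10 ^ 24 ≤ wb x := by
  rcases le_total x xa with h | h
  · rw [wb_R0 h]; norm_num
  rcases le_total x (xa + 1) with h1 | h1
  · have := (wb_R1 h h1).1
    norm_num at *; linarith
  rcases le_total x xo with h2 | h2
  · exact (wb_R2 h1 h2).1
  · exact (wb_R3 h2 hx).1

lemma wb_G2 {x : ℝ} (hx : x ≤ -1) : 1 / 64 ≤ wb x := by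
  rcases le_total x (xo + 1) with h3 | h3
  · have := wb_G3 h3
    norm_num at *; linarith
  · rw [wb_R4 h3 (by linarith)]
    norm_num at *; linarith

lemma wb_G7 {x : ℝ} (hx : 63 ≤ x) : 63 / 64 ≤ wb x := by
  rcases le_total x 64 with h7 | h7
  · exact (wb_R7 hx h7).1
  · exact (wb_R8 h7).1

end

end Pool.Agent.Lib.MP_bfb34b_an
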