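import Mathlib

/-!
Upper bound for positive solutions at the exponent `1/2`.

All estimates concern a function `w` with derivative `w1` satisfying
`d * w'' + p^2 * P * w - P * w^2 / p^2 = 0` on `(a,b)`, that is
`d * w'' + (p^4)^(1/2) * P * w * (1 - w / p^4) = 0`.
-/

open Set MeasureTheory intervalIntegral

namespace Pool.Agent.Lib.MP_bfb34b_an

/-- Second derivative test at a maximum over a closed interval, when the first
derivative vanishes at the maximum point (possibly an end point). -/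
lemma second_deriv_nonpos {α β z : ℝ} {w w1 w2 : ℝ → ℝ} (hαβ : α < β)
    (hw : ContinuousOn w (Icc α β)) (hw1 : ContinuousOn w1 (Icc α β))
    (hw2 : ContinuousOn w2 (Icc α β))
    (d0 : ∀ x ∈ Ioo α β, HasDerivAt w (w1 x) x)
    (d1 : ∀ x ∈ Ioo α β, HasDerivAt w1 (w2 x) x)
    (hz : z ∈ Icc α β) (hmax : ∀ x ∈ Icc α β, w x ≤ w z) (hz1 : w1 z = 0) :
    w2 z ≤ 0 := by
  by_contra hcon
  push Not at hcon
  -- a neighbourhood where w2 > 0
  have hnb : ∀ᶠ x in nhdsWithin z (Icc α β), 0 < w2 x :=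
    (hw2 z hz).eventually (lt_mem_nhds hcon)
  obtain ⟨δ, hδ, hball⟩ := Metric.mem_nhdsWithin_iff.1 hnb
  have hpos : ∀ x ∈ Icc α β, |x - z| < δ → 0 < w2 x := by
    intro x hx hxz
    exact hball ⟨by simpa [Real.dist_eq] using hxz, hx⟩
  rcases lt_or_eq_of_le hz.2 with hlt | heq
  · -- go to the right
    obtain ⟨y, hy1, hy2, hy3⟩ : ∃ y, z < y ∧ y ≤ β ∧ y < z + δ :=
      ⟨min β (z + δ / 2), lt_min hlt (by linarith), min_le_left _ _,
        lt_of_le_of_lt (min_le_right _ _) (by linarith)⟩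
    have hsub : Icc z y ⊆ Icc α β := Icc_subset_Icc hz.1 hy2
    have hsubo : Ioo z y ⊆ Ioo α β := Ioo_subset_Ioo hz.1 hy2
    have hmono : StrictMonoOn w1 (Icc z y) := by
      apply strictMonoOn_of_deriv_pos (convex_Icc z y) (hw1.mono hsub)
      intro x hx
      rw [interior_Icc] at hx
      rw [(d1 x (hsubo hx)).deriv]
      apply hpos x (hsub (Ioo_subset_Icc_self hx))
      rw [abs_lt]; constructor <;> linarith [hx.1, hx.2]
    have hmono0 : StrictMonoOn w (Icc z y) := by
      apply strictMonoOn_of_deriv_pos (convex_Icc z y) (hw.mono hsub)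
      intro x hx
      rw [interior_Icc] at hx
      rw [(d0 x (hsubo hx)).deriv]
      have := hmono (left_mem_Icc.2 hy1.le) (Ioo_subset_Icc_self hx) hx.1
      linarith
    have h1 := hmono0 (left_mem_Icc.2 hy1.le) (right_mem_Icc.2 hy1.le) hy1
    have h2 := hmax y (hsub (right_mem_Icc.2 hy1.le))
    linarith
  · -- z = β : go to the left
    have hαz : α < z := by rw [heq]; exact hαβ
    obtain ⟨y, hy1, hy2, hy3⟩ : ∃ y, y < z ∧ α ≤ y ∧ z - δ < y :=
      ⟨max α (z - δ / 2), max_lt hαz (by linarith), le_max_left _ _,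
        lt_of_lt_of_le (by linarith) (le_max_right _ _)⟩
    have hsub : Icc y z ⊆ Icc α β := Icc_subset_Icc hy2 hz.2
    have hsubo : Ioo y z ⊆ Ioo α β := Ioo_subset_Ioo hy2 hz.2
    have hmono : StrictMonoOn w1 (Icc y z) := by
      apply strictMonoOn_of_deriv_pos (convex_Icc y z) (hw1.mono hsub)
      intro x hx
      rw [interior_Icc] at hx
      rw [(d1 x (hsubo hx)).deriv]
      apply hpos x (hsub (Ioo_subset_Icc_self hx))
      rw [abs_lt]; constructor <;> linarith [hx.1, hx.2]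
    have hmono0 : StrictAntiOn w (Icc y z) := by
      apply strictAntiOn_of_deriv_neg (convex_Icc y z) (hw.mono hsub)
      intro x hx
      rw [interior_Icc] at hx
      rw [(d0 x (hsubo hx)).deriv]
      have := hmono (Ioo_subset_Icc_self hx) (right_mem_Icc.2 hy1.le) hx.2
      linarith
    have h1 := hmono0 (left_mem_Icc.2 hy1.le) (right_mem_Icc.2 hy1.le) hy1
    have h2 := hmax y (hsub (left_mem_Icc.2 hy1.le))
    linarith

/-- At a maximum point over a closed interval the derivative vanishes, if it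
vanishes at both end points. -/
lemma deriv_zero_at_max {α β z : ℝ} {w w1 : ℝ → ℝ}
    (d0 : ∀ x ∈ Ioo α β, HasDerivAt w (w1 x) x)
    (hα : w1 α = 0) (hβ : w1 β = 0)
    (hz : z ∈ Icc α β) (hmax : ∀ x ∈ Icc α β, w x ≤ w z) : w1 z = 0 := by
  rcases lt_or_eq_of_le hz.1 with h1 | h1
  · rcases lt_or_eq_of_le hz.2 with h2 | h2
    · have hloc : IsLocalMax w z := by
        filter_upwards [Icc_mem_nhds h1 h2] with x hx using hmax x hx
      exact hloc.hasDerivAt_eq_zero (d0 z ⟨h1, h2⟩)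
    · rw [h2]; exact hβ
  · rw [← h1]; exact hα

/-- The data of a positive solution of `w'' = w2` with Neumann conditions. -/
structure Sol (a b : ℝ) (w w1 w2 : ℝ → ℝ) : Prop where
  cw : ContinuousOn w (Icc a b)
  cw1 : ContinuousOn w1 (Icc a b)
  cw2 : ContinuousOn w2 (Icc a b)
  pos : ∀ x ∈ Icc a b, 0 < w x
  d0 : ∀ x ∈ Ioo a b, HasDerivAt w (w1 x) x
  d1 : ∀ x ∈ Ioo a b, HasDerivAt w1 (w2 x) x
  na : w1 a = 0
  nb : w1 b = 0

namespace Sol

variable {a b : ℝ} {w w1 w2 : ℝ → ℝ}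

/-- Maximum principle on a subinterval at whose ends the derivative vanishes.  Here
`w2 x > 0` whenever `w x > Q`. -/
lemma le_of_max (h : Sol a b w w1 w2) {α β Q : ℝ} (hα : a ≤ α) (hαβ : α < β) (hβ : β ≤ b)
    (h1 : w1 α = 0) (h2 : w1 β = 0)
    (hQ : ∀ x ∈ Icc α β, Q < w x → 0 < w2 x) :
    ∀ x ∈ Icc α β, w x ≤ Q := by
  have hsub : Icc α β ⊆ Icc a b := Icc_subset_Icc hα hβ
  have hsubo : Ioo α β ⊆ Ioo a b := Ioo_subset_Ioo hα hβ
  obtain ⟨z, hz, hzmax⟩ := isCompact_Icc.exists_isMaxOn (nonempty_Icc.2 hαβ.le) (h.cw.mono hsub)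
  have hmax : ∀ x ∈ Icc α β, w x ≤ w z := fun x hx => hzmax hx
  have hz1 : w1 z = 0 := deriv_zero_at_max (fun x hx => h.d0 x (hsubo hx)) h1 h2 hz hmax
  have hz2 : w2 z ≤ 0 := second_deriv_nonpos hαβ (h.cw.mono hsub) (h.cw1.mono hsub)
    (h.cw2.mono hsub) (fun x hx => h.d0 x (hsubo hx)) (fun x hx => h.d1 x (hsubo hx)) hz hmax hz1
  have hzQ : w z ≤ Q := by
    by_contra hc
    push Not at hc
    have := hQ z hz hc
    linarith
  intro x hx
  exact (hmax x hx).trans hzQ

/-- There is a minimum point; there the derivative vanishes and the second derivative is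
nonnegative. -/
lemma exists_min (h : Sol a b w w1 w2) (hab : a < b) :
    ∃ z ∈ Icc a b, (∀ x ∈ Icc a b, w z ≤ w x) ∧ w1 z = 0 ∧ 0 ≤ w2 z := by
  obtain ⟨z, hz, hzmin⟩ := isCompact_Icc.exists_isMinOn (nonempty_Icc.2 hab.le) h.cw
  have hmin : ∀ x ∈ Icc a b, w z ≤ w x := fun x hx => hzmin hx
  have hmax : ∀ x ∈ Icc a b, (fun y => - w y) x ≤ (fun y => - w y) z := by
    intro x hx; simpa using hmin x hx
  have hd0 : ∀ x ∈ Ioo a b, HasDerivAt (fun y => - w y) ((fun y => - w1 y) x) x :=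
    fun x hx => (h.d0 x hx).neg
  have hd1 : ∀ x ∈ Ioo a b, HasDerivAt (fun y => - w1 y) ((fun y => - w2 y) x) x :=
    fun x hx => (h.d1 x hx).neg
  have hz1 : (fun y => - w1 y) z = 0 := by
    apply deriv_zero_at_max hd0 _ _ hz hmax
    · simp [h.na]
    · simp [h.nb]
  have hz2 : (fun y => - w2 y) z ≤ 0 := second_deriv_nonpos (w2 := fun y => - w2 y) hab
    h.cw.neg h.cw1.neg h.cw2.neg hd0 hd1 hz hmax hz1
  refine ⟨z, hz, hmin, by simpa using hz1, by simpa using hz2⟩

/-- The fundamental theorem of calculus for `w1`. -/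
lemma flux (h : Sol a b w w1 w2) {x y : ℝ} (hx : a ≤ x) (hxy : x ≤ y) (hy : y ≤ b) :
    ∫ t in x..y, w2 t = w1 y - w1 x := by
  apply intervalIntegral.integral_eq_sub_of_hasDerivAt_of_le hxy
  · exact h.cw1.mono (Icc_subset_Icc hx hy)
  · intro t ht
    exact h.d1 t (Ioo_subset_Ioo hx hy ht)
  · apply ContinuousOn.intervalIntegrable
    rw [uIcc_of_le hxy]
    exact h.cw2.mono (Icc_subset_Icc hx hy)

end Sol

/-- Integrability on subintervals. -/
lemma ii {a b x y : ℝ} {f : ℝ → ℝ} (hf : ContinuousOn f (Icc a b)) (hx : a ≤ x) (hxy : x ≤ y)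
    (hy : y ≤ b) : IntervalIntegrable f volume x y := by
  apply ContinuousOn.intervalIntegrable
  rw [uIcc_of_le hxy]
  exact hf.mono (Icc_subset_Icc hx hy)

/-- A quadratic lower bound (Cauchy and Schwarz). -/
lemma quad {a b x y N : ℝ} {p P w : ℝ → ℝ}
    (hp : ContinuousOn p (Icc a b)) (hP : ContinuousOn P (Icc a b))
    (hw : ContinuousOn w (Icc a b)) (pp : ∀ x ∈ Icc a b, 0 < p x) (pP : ∀ x ∈ Icc a b, 0 < P x)
    (hx : a ≤ x) (hxy : x ≤ y) (hy : y ≤ b) (hN : 0 < N)
    (hNN : ∫ t in x..y, p t ^ 2 * P t ≤ N) :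
    (∫ t in x..y, P t * w t) ^ 2 / N ≤ ∫ t in x..y, P t * w t ^ 2 / p t ^ 2 := by
  set U := ∫ t in x..y, P t * w t with hU
  have c1 : ContinuousOn (fun t => P t * w t) (Icc a b) := hP.mul hw
  have c2 : ContinuousOn (fun t => P t * w t ^ 2 / p t ^ 2) (Icc a b) :=
    (hP.mul (hw.pow 2)).div (hp.pow 2) (fun t ht => (pow_pos (pp t ht) 2).ne')
  have c3 : ContinuousOn (fun t => p t ^ 2 * P t) (Icc a b) := (hp.pow 2).mul hP
  have key : ∫ t in x..y, (2 * (U / N) * (P t * w t) - (U / N) ^ 2 * (p t ^ 2 * P t)) ≤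
      ∫ t in x..y, P t * w t ^ 2 / p t ^ 2 := by
    apply intervalIntegral.integral_mono_on hxy
    · exact ((ii c1 hx hxy hy).const_mul _).sub ((ii c3 hx hxy hy).const_mul _)
    · exact ii c2 hx hxy hy
    · intro t ht
      have ht' : t ∈ Icc a b := Icc_subset_Icc hx hy ht
      have h1 := pp t ht'
      have h2 := pP t ht'
      have : P t * w t ^ 2 / p t ^ 2 -
          (2 * (U / N) * (P t * w t) - (U / N) ^ 2 * (p t ^ 2 * P t)) =
          P t * (w t / p t - (U / N) * p t) ^ 2 := by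
        field_simp
        ring
      have h3 : 0 ≤ P t * (w t / p t - (U / N) * p t) ^ 2 := by positivity
      linarith
  rw [intervalIntegral.integral_sub ((ii c1 hx hxy hy).const_mul _)
    ((ii c3 hx hxy hy).const_mul _), intervalIntegral.integral_const_mul,
    intervalIntegral.integral_const_mul, ← hU] at key
  have h4 : (U / N) ^ 2 * ∫ t in x..y, p t ^ 2 * P t ≤ (U / N) ^ 2 * N :=
    mul_le_mul_of_nonneg_left hNN (sq_nonneg _)
  have h5 : 2 * (U / N) * U - (U / N) ^ 2 * N = U ^ 2 / N := by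
    field_simp
    ring
  linarith

/-- The geometric data used in the upper bound; `B = 10^6`. -/
structure Geom (a b u1 v0 y1 y2 z1 z2 : ℝ) (p P : ℝ → ℝ) : Prop where
  cp : ContinuousOn p (Icc a b)
  cP : ContinuousOn P (Icc a b)
  pp : ∀ x ∈ Icc a b, 0 < p x
  pP : ∀ x ∈ Icc a b, 0 < P x
  h1 : a < u1
  h2 : u1 < v0
  h3 : v0 ≤ y1
  h4 : y1 ≤ y2
  h5 : y2 < b
  h6 : a ≤ z1
  h7 : z1 ≤ z2
  h8 : z2 ≤ b
  len : v0 - u1 = 1023 * (10 ^ 6) ^ 3 - 1
  lenb : b - y1 = 65
  lena : b - a ≤ 10 ^ 30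
  q1 : ∀ x ∈ Icc a b, p x ^ 4 ≤ 4096 * (10 ^ 6) ^ 4 + 2
  n1 : ∫ t in a..v0, p t ^ 2 * P t ≤ 1.001 / (64 * (10 ^ 6) ^ 2)
  n0 : ∫ t in u1..y2, p t ^ 2 * P t ≤ 1.002 / (10 ^ 6) ^ 2
  e1 : ∀ x ∈ Icc u1 y2, p x ^ 2 * P x ≤ 1.001 * (10 ^ 6) ^ 2 * P x + 1 / 10 ^ 100
  qA : ∀ x ∈ Icc y1 b, p x ^ 4 ≤ 256 / 255
  pR : ∫ t in y1..b, P t ≤ 4.14
  qlow : ∀ x ∈ Icc a b, p x ^ 4 ≤ 1 / 1000 → y1 ≤ x ∧ x ≤ y2
  sink : ∫ t in a..b, p t ^ 6 * P t < (1 / 1000) ^ 2 * ∫ t in z1..z2, P t / p t ^ 2

/-- The arithmetic at the end, first case. -/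
lemma arith1 {X Y f : ℝ} (hX : 0 ≤ X) (hY : 0 ≤ Y) (hf : f ≤ 4100 * 10 ^ 6)
    (I1 : f ≤ (64 * (10 ^ 6) ^ 2 + 1) * X - X ^ 2 / (1.001 / (64 * (10 ^ 6) ^ 2)))
    (I2 : Y ^ 2 / (1.002 / (10 ^ 6) ^ 2) - (1.001 * (10 ^ 6) ^ 2 * Y + 1) ≤ f) :
    X + Y ≤ 2.03 := by
  have hY' : Y ≤ 1.015 := by
    by_contra hc
    push Not at hc
    norm_num at *
    nlinarith
  have hX' : X ≤ 1.015 := by
    by_contra hc
    push Not at hc
    norm_num at *
    nlinarith [sq_nonneg (Y - 1 / 2)]
  linarith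

/-- The arithmetic at the end, second case. -/
lemma arith2 {X Y f : ℝ} (hX : 0 ≤ X) (hY : 0 ≤ Y)
    (I1 : f ≤ (64 * (10 ^ 6) ^ 2 + 1) * X - X ^ 2 / (1.001 / (64 * (10 ^ 6) ^ 2)))
    (I2 : Y ^ 2 / (1.002 / (10 ^ 6) ^ 2) - (1.001 * (10 ^ 6) ^ 2 * Y + 1) ≤ f) :
    X + Y ≤ 6 := by
  by_contra hc
  push Not at hc
  norm_num at *
  nlinarith [sq_nonneg (64 * (X - 1 / 2) - (Y - 1 / 2))]

lemma sq_le_of_pow4 {x A C : ℝ} (hA : 0 ≤ A) (h : x ^ 4 ≤ C) (hAC : C ≤ A ^ 2) :
    x ^ 2 ≤ A := by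
  have h1 : (x ^ 2) ^ 2 ≤ A ^ 2 := by
    calc (x ^ 2) ^ 2 = x ^ 4 := by ring
      _ ≤ _ := h.trans hAC
  exact (pow_le_pow_iff_left₀ (sq_nonneg x) hA (by norm_num)).1 h1

/-- The reaction term, divided by `-d`. -/
noncomputable def react (d : ℝ) (p P w : ℝ → ℝ) (x : ℝ) : ℝ :=
  -(p x ^ 2 * P x * w x - P x * w x ^ 2 / p x ^ 2) / d

/-- The upper bound for the total population. -/
theorem upper {a b u1 v0 y1 y2 z1 z2 d : ℝ} {p P w w1 : ℝ → ℝ}
    (g : Geom a b u1 v0 y1 y2 z1 z2 p P) (hd : 0 < d)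
    (h : Sol a b w w1 (react d p P w)) :
    ∫ t in a..b, P t * w t ≤ 6.2 := by
  have hab : a < b := by linarith [g.h1, g.h2, g.h3, g.h4, g.h5]
  have hav0 : a ≤ v0 := by linarith [g.h1, g.h2]
  have hv0b : v0 ≤ b := by linarith [g.h3, g.h4, g.h5]
  have hau1 : a ≤ u1 := g.h1.le
  have hu1b : u1 ≤ b := by linarith [g.h2]
  have hay1 : a ≤ y1 := by linarith [g.h3]
  have hy1b : y1 ≤ b := by linarith [g.h4, g.h5]
  have hay2 : a ≤ y2 := by linarith [g.h4]
  have hy2b : y2 ≤ b := g.h5.le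
  -- continuity facts
  have c1 : ContinuousOn (fun t => P t * w t) (Icc a b) := g.cP.mul h.cw
  have c2 : ContinuousOn (fun t => P t * w t ^ 2 / p t ^ 2) (Icc a b) :=
    (g.cP.mul (h.cw.pow 2)).div (g.cp.pow 2) (fun t ht => (pow_pos (g.pp t ht) 2).ne')
  have c3 : ContinuousOn (fun t => p t ^ 2 * P t) (Icc a b) := (g.cp.pow 2).mul g.cP
  have c4 : ContinuousOn (fun t => p t ^ 2 * P t * w t) (Icc a b) := c3.mul h.cw
  have c6 : ContinuousOn (fun t => p t ^ 6 * P t) (Icc a b) := (g.cp.pow 6).mul g.cP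
  -- flux identity
  have hflux : ∀ x y, a ≤ x → x ≤ y → y ≤ b →
      (∫ t in x..y, p t ^ 2 * P t * w t) - (∫ t in x..y, P t * w t ^ 2 / p t ^ 2) =
        -d * w1 y - (-d * w1 x) := by
    intro x y hx hxy hy
    have h1 := h.flux hx hxy hy
    rw [← intervalIntegral.integral_sub (ii c4 hx hxy hy) (ii c2 hx hxy hy)]
    have h2 : ∫ t in x..y, react d p P w t =
        (-1 / d) * ∫ t in x..y, (p t ^ 2 * P t * w t - P t * w t ^ 2 / p t ^ 2) := by
      rw [← intervalIntegral.integral_const_mul]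
      apply intervalIntegral.integral_congr
      intro t _
      simp only [react]
      ring
    rw [h2] at h1
    have h3 : (∫ t in x..y, (p t ^ 2 * P t * w t - P t * w t ^ 2 / p t ^ 2)) =
        -d * ((-1 / d) * ∫ t in x..y, (p t ^ 2 * P t * w t - P t * w t ^ 2 / p t ^ 2)) := by
      field_simp
    rw [h3, h1]
    ring
  -- sign of the reaction term
  have hsign : ∀ x ∈ Icc a b, ∀ Q, p x ^ 4 ≤ Q → Q < w x → 0 < react d p P w x := by
    intro x hx Q hQ hw
    have hp := g.pp x hx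
    have hP := g.pP x hx
    have hw0 := h.pos x hx
    have : react d p P w x = P x * w x * (w x - p x ^ 4) / (p x ^ 2 * d) := by
      simp only [react]
      field_simp
      ring
    rw [this]
    have h1 : 0 < w x - p x ^ 4 := by linarith
    positivity
  -- maximum principle
  have hmaxQ : ∀ x ∈ Icc a b, w x ≤ 4096 * (10 ^ 6) ^ 4 + 2 := by
    apply h.le_of_max le_rfl hab le_rfl h.na h.nb
    intro x hx hw
    exact hsign x hx _ (g.q1 x hx) hw
  -- minimum point
  obtain ⟨z, hz, hmin, hz1, hz2⟩ := h.exists_min hab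
  have hqz : p z ^ 4 ≤ w z := by
    by_contra hc
    push Not at hc
    have hp := g.pp z hz
    have hP := g.pP z hz
    have hw0 := h.pos z hz
    have : react d p P w z = -(P z * w z * (p z ^ 4 - w z) / (p z ^ 2 * d)) := by
      simp only [react]
      field_simp
    rw [this] at hz2
    have h1 : 0 < p z ^ 4 - w z := by linarith
    have h2 : 0 < P z * w z * (p z ^ 4 - w z) / (p z ^ 2 * d) := by positivity
    linarith
  -- the minimum is small
  have hwz : w z ≤ 1 / 1000 := by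
    by_contra hc
    push Not at hc
    have e0 := hflux a b le_rfl hab.le le_rfl
    rw [h.na, h.nb] at e0
    have e1 : ∫ t in a..b, p t ^ 2 * P t * w t ≤
        ∫ t in a..b, (1 / 2 * (P t * w t ^ 2 / p t ^ 2) + 1 / 2 * (p t ^ 6 * P t)) := by
      apply intervalIntegral.integral_mono_on hab.le (ii c4 le_rfl hab.le le_rfl)
      · exact ((ii c2 le_rfl hab.le le_rfl).const_mul _).add
          ((ii c6 le_rfl hab.le le_rfl).const_mul _)
      · intro t ht
        have hp := g.pp t ht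
        have hP := g.pP t ht
        have : 1 / 2 * (P t * w t ^ 2 / p t ^ 2) + 1 / 2 * (p t ^ 6 * P t) -
            p t ^ 2 * P t * w t = 1 / 2 * P t * (w t / p t - p t ^ 3) ^ 2 := by
          field_simp
          ring
        have h2 : 0 ≤ 1 / 2 * P t * (w t / p t - p t ^ 3) ^ 2 := by positivity
        linarith
    rw [intervalIntegral.integral_add ((ii c2 le_rfl hab.le le_rfl).const_mul _)
      ((ii c6 le_rfl hab.le le_rfl).const_mul _), intervalIntegral.integral_const_mul,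
      intervalIntegral.integral_const_mul] at e1
    have e2 : ∫ t in z1..z2, (1 / 1000) ^ 2 * (P t / p t ^ 2) ≤
        ∫ t in z1..z2, P t * w t ^ 2 / p t ^ 2 := by
      apply intervalIntegral.integral_mono_on g.h7
      · apply IntervalIntegrable.const_mul
        exact ii (g.cP.div (g.cp.pow 2) (fun t ht => (pow_pos (g.pp t ht) 2).ne')) g.h6 g.h7 g.h8
      · exact ii c2 g.h6 g.h7 g.h8
      · intro t ht
        have ht' : t ∈ Icc a b := Icc_subset_Icc g.h6 g.h8 ht
        have hp := g.pp t ht'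
        have hP := g.pP t ht'
        have h1 : (1 / 1000 : ℝ) ^ 2 ≤ w t ^ 2 := by
          apply pow_le_pow_left₀ (by norm_num)
          exact hc.le.trans (hmin t ht')
        have h2 : (1 / 1000 : ℝ) ^ 2 * (P t / p t ^ 2) ≤ w t ^ 2 * (P t / p t ^ 2) :=
          mul_le_mul_of_nonneg_right h1 (by positivity)
        calc _ ≤ _ := h2
          _ = _ := by ring
    rw [intervalIntegral.integral_const_mul] at e2
    have e3 : ∫ t in z1..z2, P t * w t ^ 2 / p t ^ 2 ≤ ∫ t in a..b, P t * w t ^ 2 / p t ^ 2 := by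
      apply intervalIntegral.integral_mono_interval g.h6 g.h7 g.h8
      · rw [Filter.EventuallyLE, ae_restrict_iff' measurableSet_Ioc]
        filter_upwards with t ht
        have ht' : t ∈ Icc a b := Ioc_subset_Icc_self ht
        have hp := g.pp t ht'
        have hP := g.pP t ht'
        simp only [Pi.zero_apply]
        positivity
      · exact ii c2 le_rfl hab.le le_rfl
    have := g.sink
    linarith
  -- location of the minimum
  obtain ⟨hzy1, hzy2⟩ := g.qlow z hz (hqz.trans hwz)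
  have hzb : z < b := lt_of_le_of_lt hzy2 g.h5
  -- the right part
  have hmaxR : ∀ x ∈ Icc z b, w x ≤ 256 / 255 := by
    apply h.le_of_max hz.1 hzb le_rfl hz1 h.nb
    intro x hx hw
    exact hsign x ⟨hz.1.trans hx.1, hx.2⟩ _ (g.qA x ⟨hzy1.trans hx.1, hx.2⟩) hw
  have hPR : ∫ t in z..b, P t ≤ 4.14 := by
    refine le_trans ?_ g.pR
    apply intervalIntegral.integral_mono_interval hzy1 hz.2 le_rfl
    · rw [Filter.EventuallyLE, ae_restrict_iff' measurableSet_Ioc]
      filter_upwards with t ht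
      have ht' : t ∈ Icc a b := ⟨by linarith [ht.1], ht.2⟩
      exact (g.pP t ht').le
    · exact ii g.cP hay1 hy1b le_rfl
  have hR : ∀ W, (∀ x ∈ Icc z b, w x ≤ W) → 0 ≤ W → ∫ t in z..b, P t * w t ≤ W * 4.14 := by
    intro W hW hW0
    calc ∫ t in z..b, P t * w t ≤ ∫ t in z..b, W * P t := by
          apply intervalIntegral.integral_mono_on hz.2 (ii c1 hz.1 hz.2 le_rfl)
            ((ii g.cP hz.1 hz.2 le_rfl).const_mul _)
          intro t ht
          have hP := g.pP t ⟨hz.1.trans ht.1, ht.2⟩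
          rw [mul_comm]
          exact mul_le_mul_of_nonneg_right (hW t ht) hP.le
      _ = W * ∫ t in z..b, P t := by rw [intervalIntegral.integral_const_mul]
      _ ≤ W * 4.14 := mul_le_mul_of_nonneg_left hPR hW0
  -- the mean value point
  have hlen : 0 < v0 - u1 := by linarith [g.h2]
  obtain ⟨ξ, hξ, hξs⟩ := exists_hasDerivAt_eq_slope w w1 g.h2
    (h.cw.mono (Icc_subset_Icc hau1 hv0b))
    (fun x hx => h.d0 x (Ioo_subset_Ioo hau1 hv0b hx))
  have haξ : a ≤ ξ := by linarith [hξ.1]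
  have hξb : ξ ≤ b := by linarith [hξ.2]
  have hξz : ξ ≤ z := by linarith [hξ.2, g.h3]
  -- splitting
  have hsplit : ∫ t in a..b, P t * w t =
      (∫ t in a..ξ, P t * w t) + (∫ t in ξ..z, P t * w t) + ∫ t in z..b, P t * w t := by
    rw [intervalIntegral.integral_add_adjacent_intervals (ii c1 le_rfl haξ hξb)
      (ii c1 haξ hξz hz.2), intervalIntegral.integral_add_adjacent_intervals
      (ii c1 le_rfl hz.1 hz.2) (ii c1 hz.1 hz.2 le_rfl)]
  set X := ∫ t in a..ξ, P t * w t with hX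
  set Y := ∫ t in ξ..z, P t * w t with hY
  have hX0 : 0 ≤ X := by
    apply intervalIntegral.integral_nonneg haξ
    intro t ht
    have ht' : t ∈ Icc a b := ⟨ht.1, ht.2.trans hξb⟩
    exact (mul_pos (g.pP t ht') (h.pos t ht')).le
  have hY0 : 0 ≤ Y := by
    apply intervalIntegral.integral_nonneg hξz
    intro t ht
    have ht' : t ∈ Icc a b := ⟨haξ.trans ht.1, ht.2.trans hz.2⟩
    exact (mul_pos (g.pP t ht') (h.pos t ht')).le
  -- first quadratic inequality
  have I1 : -d * w1 ξ ≤ (64 * (10 ^ 6) ^ 2 + 1) * X - X ^ 2 / (1.001 / (64 * (10 ^ 6) ^ 2)) := by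
    have e0 := hflux a ξ le_rfl haξ hξb
    rw [h.na] at e0
    have e1 : ∫ t in a..ξ, p t ^ 2 * P t ≤ 1.001 / (64 * (10 ^ 6) ^ 2) := by
      refine le_trans ?_ g.n1
      apply intervalIntegral.integral_mono_interval le_rfl haξ hξ.2.le
      · rw [Filter.EventuallyLE, ae_restrict_iff' measurableSet_Ioc]
        filter_upwards with t ht
        have ht' : t ∈ Icc a b := ⟨ht.1.le, ht.2.trans hv0b⟩
        have hp := g.pp t ht'
        have hP := g.pP t ht'
        simp only [Pi.zero_apply]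
        positivity
      · exact ii c3 le_rfl hav0 hv0b
    have e2 := quad g.cp g.cP h.cw g.pp g.pP le_rfl haξ hξb (by norm_num) e1
    have e3 : ∫ t in a..ξ, p t ^ 2 * P t * w t ≤ (64 * (10 ^ 6) ^ 2 + 1) * X := by
      rw [hX, ← intervalIntegral.integral_const_mul]
      apply intervalIntegral.integral_mono_on haξ (ii c4 le_rfl haξ hξb)
        ((ii c1 le_rfl haξ hξb).const_mul _)
      intro t ht
      have ht' : t ∈ Icc a b := ⟨ht.1, ht.2.trans hξb⟩
      have hp := g.pp t ht'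
      have hPw := mul_pos (g.pP t ht') (h.pos t ht')
      have h5 : p t ^ 2 ≤ 64 * (10 ^ 6) ^ 2 + 1 :=
        sq_le_of_pow4 (by norm_num) (g.q1 t ht') (by norm_num)
      calc p t ^ 2 * P t * w t = p t ^ 2 * (P t * w t) := by ring
        _ ≤ _ := mul_le_mul_of_nonneg_right h5 hPw.le
    linarith
  -- second quadratic inequality
  have I2 : Y ^ 2 / (1.002 / (10 ^ 6) ^ 2) - (1.001 * (10 ^ 6) ^ 2 * Y + 1) ≤ -d * w1 ξ := by
    have e0 := hflux ξ z haξ hξz hz.2
    rw [hz1] at e0
    have e1 : ∫ t in ξ..z, p t ^ 2 * P t ≤ 1.002 / (10 ^ 6) ^ 2 := by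
      refine le_trans ?_ g.n0
      apply intervalIntegral.integral_mono_interval hξ.1.le hξz hzy2
      · rw [Filter.EventuallyLE, ae_restrict_iff' measurableSet_Ioc]
        filter_upwards with t ht
        have ht' : t ∈ Icc a b := ⟨hau1.trans ht.1.le, ht.2.trans hy2b⟩
        have hp := g.pp t ht'
        have hP := g.pP t ht'
        simp only [Pi.zero_apply]
        positivity
      · exact ii c3 hau1 (by linarith [g.h2, g.h3, g.h4]) hy2b
    have e2 := quad g.cp g.cP h.cw g.pp g.pP haξ hξz hz.2 (by norm_num) e1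
    have e3 : ∫ t in ξ..z, p t ^ 2 * P t * w t ≤ 1.001 * (10 ^ 6) ^ 2 * Y + 1 := by
      have e4 : ∫ t in ξ..z, p t ^ 2 * P t * w t ≤
          ∫ t in ξ..z, (1.001 * (10 ^ 6) ^ 2 * (P t * w t) + 1 / 10 ^ 50) := by
        apply intervalIntegral.integral_mono_on hξz (ii c4 haξ hξz hz.2)
          (((ii c1 haξ hξz hz.2).const_mul _).add (by simp))
        intro t ht
        have ht' : t ∈ Icc a b := ⟨haξ.trans ht.1, ht.2.trans hz.2⟩
        have hw0 := h.pos t ht'
        have h5 := g.e1 t ⟨hξ.1.le.trans ht.1, ht.2.trans hzy2⟩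
        have h6 := hmaxQ t ht'
        have h7 : p t ^ 2 * P t * w t ≤ (1.001 * (10 ^ 6) ^ 2 * P t + 1 / 10 ^ 100) * w t :=
          mul_le_mul_of_nonneg_right h5 hw0.le
        have h8 : 1 / 10 ^ 100 * w t ≤ 1 / 10 ^ 50 := by
          norm_num at h6 ⊢
          linarith
        linarith
      rw [intervalIntegral.integral_add ((ii c1 haξ hξz hz.2).const_mul _) (by simp),
        intervalIntegral.integral_const_mul, intervalIntegral.integral_const, ← hY] at e4
      have h9 : (z - ξ) • ((1 : ℝ) / 10 ^ 50) ≤ 1 := by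
        have := g.lena
        have h10 : z - ξ ≤ 10 ^ 30 := by linarith [hz.2]
        rw [smul_eq_mul]
        norm_num at h10 ⊢
        linarith
      linarith
    linarith
  rcases le_or_gt d 1000 with hd1 | hd1
  · -- small `d`
    have hf : -d * w1 ξ ≤ 4100 * 10 ^ 6 := by
      have e1 : -w1 ξ * (v0 - u1) ≤ 4096 * (10 ^ 6) ^ 4 + 2 := by
        rw [hξs]
        have e2 := hmaxQ u1 ⟨hau1, hu1b⟩
        have e3 := h.pos v0 ⟨hav0, hv0b⟩
        have : -((w v0 - w u1) / (v0 - u1)) * (v0 - u1) = w u1 - w v0 := by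
          field_simp
          ring
        rw [this]
        linarith
      rw [g.len] at e1
      by_cases hs : 0 ≤ -w1 ξ
      · have : -d * w1 ξ ≤ 1000 * (-w1 ξ) := by
          have := mul_le_mul_of_nonneg_right hd1 hs
          linarith
        norm_num at e1 this ⊢
        linarith
      · push Not at hs
        have : -d * w1 ξ < 0 := by nlinarith
        linarith
    have hXY := arith1 hX0 hY0 hf I1 I2
    have hRR := hR (256 / 255) hmaxR (by norm_num)
    rw [hsplit]
    norm_num at hXY hRR ⊢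
    linarith
  · -- large `d`
    have hXY := arith2 hX0 hY0 I1 I2
    -- the maximum of `w` on the right part
    obtain ⟨s, hs, hsmax⟩ := isCompact_Icc.exists_isMaxOn (nonempty_Icc.2 hzb.le)
      (h.cw.mono (Icc_subset_Icc hz.1 le_rfl))
    have hmax : ∀ x ∈ Icc z b, w x ≤ w s := fun x hx => hsmax hx
    have hs0 : 0 < w s := h.pos s ⟨hz.1.trans hs.1, hs.2⟩
    have hw1 : ∀ x ∈ Icc z b, w1 x ≤ w s * 4.2 / 1000 := by
      intro x hx
      have e0 := hflux x b (hz.1.trans hx.1) hx.2 le_rfl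
      rw [h.nb] at e0
      have e1 : ∫ t in x..b, p t ^ 2 * P t * w t ≤ w s * 4.2 := by
        have e5 : ∫ t in x..b, p t ^ 2 * P t * w t ≤ ∫ t in x..b, (w s * 1.01) * P t := by
          apply intervalIntegral.integral_mono_on hx.2 (ii c4 (hz.1.trans hx.1) hx.2 le_rfl)
            ((ii g.cP (hz.1.trans hx.1) hx.2 le_rfl).const_mul _)
          intro t ht
          have ht' : t ∈ Icc a b := ⟨(hz.1.trans hx.1).trans ht.1, ht.2⟩
          have hp := g.pp t ht'
          have hP := g.pP t ht'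
          have h5 : p t ^ 2 ≤ 1.01 :=
            sq_le_of_pow4 (by norm_num) (g.qA t ⟨(hzy1.trans hx.1).trans ht.1, ht.2⟩)
              (by norm_num)
          have h7 := hmax t ⟨hx.1.trans ht.1, ht.2⟩
          have hw0 := h.pos t ht'
          calc p t ^ 2 * P t * w t = (p t ^ 2 * w t) * P t := by ring
            _ ≤ (1.01 * w s) * P t := by
              apply mul_le_mul_of_nonneg_right _ hP.le
              exact mul_le_mul h5 h7 hw0.le (by norm_num)
            _ = _ := by ring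
        rw [intervalIntegral.integral_const_mul] at e5
        have e6 : ∫ t in x..b, P t ≤ 4.14 := by
          refine le_trans ?_ g.pR
          apply intervalIntegral.integral_mono_interval (hzy1.trans hx.1) hx.2 le_rfl
          · rw [Filter.EventuallyLE, ae_restrict_iff' measurableSet_Ioc]
            filter_upwards with t ht
            have ht' : t ∈ Icc a b := ⟨by linarith [ht.1], ht.2⟩
            exact (g.pP t ht').le
          · exact ii g.cP hay1 hy1b le_rfl
        have e7 : w s * 1.01 * ∫ t in x..b, P t ≤ w s * 1.01 * 4.14 :=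
          mul_le_mul_of_nonneg_left e6 (by positivity)
        have e8 : w s * 1.01 * 4.14 ≤ w s * 4.2 := by nlinarith
        linarith
      have e2 : 0 ≤ ∫ t in x..b, P t * w t ^ 2 / p t ^ 2 := by
        apply intervalIntegral.integral_nonneg hx.2
        intro t ht
        have ht' : t ∈ Icc a b := ⟨(hz.1.trans hx.1).trans ht.1, ht.2⟩
        have hp := g.pp t ht'
        have hP := g.pP t ht'
        positivity
      have e3 : d * w1 x ≤ w s * 4.2 := by linarith
      by_cases hneg : w1 x ≤ 0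
      · have : 0 ≤ w s * 4.2 / 1000 := by positivity
        linarith
      · push Not at hneg
        rw [le_div_iff₀ (by norm_num)]
        nlinarith
    -- the mean value theorem
    have hws : w s ≤ 2 * w z := by
      rcases lt_or_eq_of_le hs.1 with hlt | heq
      · obtain ⟨η, hη, hηs⟩ := exists_hasDerivAt_eq_slope w w1 hlt
          (h.cw.mono (Icc_subset_Icc hz.1 hs.2))
          (fun x hx => h.d0 x (Ioo_subset_Ioo hz.1 hs.2 hx))
        have e1 := hw1 η ⟨hη.1.le, hη.2.le.trans hs.2⟩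
        have hsz : 0 < s - z := by linarith
        have e2 : w s - w z = w1 η * (s - z) := by
          rw [hηs]; field_simp
        have e3 : s - z ≤ 65 := by linarith [g.lenb, hs.2]
        have e4 : w1 η * (s - z) ≤ (w s * 4.2 / 1000) * 65 := by
          calc w1 η * (s - z) ≤ (w s * 4.2 / 1000) * (s - z) :=
                mul_le_mul_of_nonneg_right e1 hsz.le
            _ ≤ _ := mul_le_mul_of_nonneg_left e3 (by positivity)
        have e5 : w s * 4.2 / 1000 * 65 ≤ w s / 2 := by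
          norm_num
          linarith
        linarith
      · rw [← heq]
        have := h.pos z hz
        linarith
    have hRR := hR (w s) hmax hs0.le
    rw [hsplit]
    have e9 : w s ≤ 2 * (1 / 1000) := by linarith
    norm_num at hRR e9 ⊢
    linarith

end Pool.Agent.Lib.MP_bfb34b_an
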