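import Mathlib
import Pool.Agent.Lib.MP_bfb34b_an.Estimates
import Pool.Agent.Lib.MP_bfb34b_an.Upper

/-!
Verification of the geometric hypotheses.
-/

open Set MeasureTheory intervalIntegral
open scoped ContDiff

namespace Pool.Agent.Lib.MP_bfb34b_an

noncomputable section

lemma ratio_pos (x : ℝ) : 0 < wb x * sg x / ta x := by
  have := wb_pos x; have := sg_pos x; have := ta_pos x
  positivity

lemma pf_pos (x : ℝ) : 0 < pf x := Real.sqrt_pos.2 (Real.sqrt_pos.2 (ratio_pos x))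

lemma pf_pow4 (x : ℝ) : pf x ^ 4 = wb x * sg x / ta x := by
  have h1 : pf x ^ 2 = Real.sqrt (wb x * sg x / ta x) := Real.sq_sqrt (Real.sqrt_nonneg _)
  have h2 : Real.sqrt (wb x * sg x / ta x) ^ 2 = wb x * sg x / ta x :=
    Real.sq_sqrt (ratio_pos x).le
  calc pf x ^ 4 = (pf x ^ 2) ^ 2 := by ring
    _ = _ := by rw [h1, h2]

lemma pf_contDiff : ContDiff ℝ ∞ pf := by
  unfold pf
  have h1 : ContDiff ℝ ∞ fun x => wb x * sg x / ta x :=
    (wb_contDiff.mul sg_contDiff).div ta_contDiff fun x => (ta_pos x).ne'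
  have h2 : ContDiff ℝ ∞ fun x => Real.sqrt (wb x * sg x / ta x) :=
    h1.sqrt fun x => (ratio_pos x).ne'
  exact h2.sqrt fun x => (Real.sqrt_pos.2 (ratio_pos x)).ne'

lemma Pf_contDiff : ContDiff ℝ ∞ Pf := by
  unfold Pf
  exact sg_contDiff.div (pf_contDiff.mul wb_contDiff)
    fun x => (mul_pos (pf_pos x) (wb_pos x)).ne'

lemma Kf_contDiff : ContDiff ℝ ∞ Kf := by
  unfold Kf
  exact (pf_contDiff.pow 4).mul Pf_contDiff

lemma Pf_pos (x : ℝ) : 0 < Pf x := div_pos (sg_pos x) (mul_pos (pf_pos x) (wb_pos x))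

lemma Kf_pos (x : ℝ) : 0 < Kf x := mul_pos (pow_pos (pf_pos x) 4) (Pf_pos x)

lemma sg_le_two_ta (x : ℝ) : sg x ≤ 2 * ta x := by
  have h1 := b1_nonneg x
  have h2 := b0_nonneg x
  have h3 := bz_nonneg x
  have h4 := bA_nonneg x
  simp only [sg, ta]
  norm_num
  linarith

lemma pf4_le (x : ℝ) : pf x ^ 4 ≤ 2 * wb x := by
  rw [pf_pow4, div_le_iff₀ (ta_pos x)]
  have := sg_le_two_ta x
  have := wb_pos x
  nlinarith

lemma pf4_le' (x : ℝ) : pf x ^ 4 ≤ 4096 * 10 ^ 24 + 2 := by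
  have h1 := pf4_le x
  have h2 := wb_upper x
  norm_num at *; linarith

lemma le_of_pow4 {x A : ℝ} (hA : 0 ≤ A) (hx : 0 ≤ x) (h : x ^ 4 ≤ A ^ 4) : x ≤ A :=
  (pow_le_pow_iff_left₀ hx hA (by norm_num)).1 h

lemma pf_le (x : ℝ) : pf x ≤ 8 * 10 ^ 6 + 1 := by
  apply le_of_pow4 (by norm_num) (pf_pos x).le
  refine (pf4_le' x).trans ?_
  norm_num

lemma pf_ge (x : ℝ) : 1 / (2 * 10 ^ 18) ≤ pf x := by
  apply le_of_pow4 (pf_pos x).le (by norm_num)
  rw [pf_pow4, le_div_iff₀ (ta_pos x)]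
  have h0 : ta x ≤ (1 + 10 ^ 48) * sg x := by
    have h1 := b1_nonneg x
    have h2 := b0_nonneg x
    have h3 := bz_nonneg x
    have h4 := bA_nonneg x
    simp only [sg, ta]
    norm_num
    linarith
  have hw := wb_lower x
  have hs := sg_pos x
  have h5 : 1 / (2 * 10 ^ 24) * sg x ≤ wb x * sg x := mul_le_mul_of_nonneg_right hw hs.le
  norm_num at *
  linarith

lemma Pf_le (x : ℝ) : Pf x ≤ 4 * 10 ^ 42 * sg x := by
  have h1 := pf_ge x
  have h2 := wb_lower x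
  have h3 : 1 / (4 * 10 ^ 42) ≤ pf x * wb x := by
    calc (1 / (4 * 10 ^ 42) : ℝ) = 1 / (2 * 10 ^ 18) * (1 / (2 * 10 ^ 24)) := by norm_num
      _ ≤ _ := mul_le_mul h1 h2 (by norm_num) (pf_pos x).le
  rw [Pf, div_le_iff₀ (mul_pos (pf_pos x) (wb_pos x))]
  have hs := sg_pos x
  calc sg x = 4 * 10 ^ 42 * sg x * (1 / (4 * 10 ^ 42)) := by norm_num; ring
    _ ≤ _ := mul_le_mul_of_nonneg_left h3 (by positivity)

/-- On `x ≤ 0` the ratio `sg / ta` is at least `1/2`. -/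
lemma pf4_ge_half {x : ℝ} (hx : x ≤ 0) : wb x / 2 ≤ pf x ^ 4 := by
  rw [pf_pow4, le_div_iff₀ (ta_pos x)]
  have h0 : ta x ≤ 2 * sg x := by
    have h1 := b1_nonneg x
    have h2 := b0_nonneg x
    have h3 := bz_zero_l hx
    have h4 := bA_nonneg x
    simp only [sg, ta, h3]
    norm_num
    linarith
  have := wb_pos x
  nlinarith

lemma pf4_ge_of_63 {x : ℝ} (hx : 63 ≤ x) : wb x ≤ pf x ^ 4 := by
  rw [pf_pow4, le_div_iff₀ (ta_pos x)]
  have hhx : hh ≤ x := by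
    have : hh ≤ 63 := by norm_num [hh]
    linarith
  have hxo : xo + 1 ≤ x := by
    have : xo + 1 ≤ 0 := by norm_num [xo]
    linarith
  have hxa : xa + 1 ≤ x := by
    have : xa ≤ xo := by norm_num [xa, xo]
    linarith
  have h0 : ta x ≤ sg x := by
    have h4 := bA_nonneg x
    simp only [sg, ta, b1_zero_r hxa, b0_zero_r hxo, bz_zero_r hhx]
    norm_num
    linarith
  exact mul_le_mul_of_nonneg_left h0 (wb_pos x).le

lemma p2P (x : ℝ) : pf x ^ 2 * Pf x = pf x / wb x * sg x := by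
  have := pf_pos x; have := wb_pos x
  rw [Pf]; field_simp

/-- Pointwise bound on the first patch and the first link. -/
lemma n1_pt {x : ℝ} (hx : xa ≤ x) (hx' : x ≤ xo) :
    pf x ^ 2 * Pf x ≤ 1.0005 / (64 * 10 ^ 12) * b1 x + 1 / 10 ^ 200 := by
  rw [p2P]
  have hp := pf_pos x
  have hp' := pf_le x
  have hb0 : b0 x = 0 := b0_zero_l hx'
  have hbz : bz x = 0 := bz_zero_l (by
    have : xo ≤ 0 := by norm_num [xo]
    linarith)
  have hbA : bA x = 0 := bA_zero_l (by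
    have : xo ≤ 63 := by norm_num [xo]
    linarith)
  have hs : sg x = 4 * 10 ^ 6 * b1 x + 1 / 10 ^ 200 := by
    simp only [sg, hb0, hbz, hbA]; ring
  have hb1 := b1_nonneg x
  rcases le_total x (xa + 1) with h | h
  · have hw := (wb_R1 hx h).1
    have h1 : pf x / wb x ≤ (8 * 10 ^ 6 + 1) / (2048 * 10 ^ 24 - 2 * 10 ^ 6) :=
      div_le_div₀ (by norm_num) hp' (by norm_num) hw
    have h2 : pf x / wb x * sg x ≤
        (8 * 10 ^ 6 + 1) / (2048 * 10 ^ 24 - 2 * 10 ^ 6) * sg x :=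
      mul_le_mul_of_nonneg_right h1 (sg_pos x).le
    refine h2.trans ?_
    rw [hs]
    norm_num
    linarith
  · have hw := (wb_R2 h hx').1
    have h1 : pf x / wb x ≤ (8 * 10 ^ 6 + 1) / (2 * 10 ^ 24) :=
      div_le_div₀ (by norm_num) hp' (by norm_num) hw
    have h2 : pf x / wb x * sg x ≤ (8 * 10 ^ 6 + 1) / (2 * 10 ^ 24) * sg x :=
      mul_le_mul_of_nonneg_right h1 (sg_pos x).le
    refine h2.trans ?_
    rw [hs, b1_zero_r h]
    norm_num

/-- `q` is almost bounded by `10^24` from the second patch on. -/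
lemma e1_pt {x : ℝ} (hx : xa + 1 ≤ x) (hx' : x ≤ 63) :
    pf x ^ 2 * Pf x ≤ 1.001 * (10 ^ 6) ^ 2 * Pf x + 1 / 10 ^ 100 := by
  have hP := Pf_pos x
  have hb1 : b1 x = 0 := b1_zero_r hx
  have hbA : bA x = 0 := bA_zero_l hx'
  have hb0 := b0_nonneg x
  have hbz := bz_nonneg x
  have hsp := sg_pos x
  have hw0 := wb_pos x
  have hs : sg x = (2 * 10 ^ 6 - 1 / 64) * b0 x + 1 / (32 * 10 ^ 48) * bz x + 1 / 10 ^ 200 := by
    simp only [sg, hb1, hbA]; ring
  have ht : 2 * sg x - 1 / 10 ^ 200 ≤ ta x := by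
    simp only [sg, ta, hb1, hbA]
    norm_num
    linarith
  have hfin : pf x ^ 4 ≤ 1.001 * 10 ^ 24 →
      pf x ^ 2 * Pf x ≤ 1.001 * (10 ^ 6) ^ 2 * Pf x + 1 / 10 ^ 100 := by
    intro h
    have h2 : pf x ^ 2 ≤ 1.001 * (10 ^ 6) ^ 2 := sq_le_of_pow4 (by norm_num) h (by norm_num)
    have h3 := mul_le_mul_of_nonneg_right h2 hP.le
    have h4 : (0 : ℝ) ≤ 1 / 10 ^ 100 := by norm_num
    linarith
  rcases le_total (wb x) 1 with hw | hw
  · apply hfin
    have := pf4_le x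
    norm_num
    linarith
  · rcases le_total (sg x) (1 / 10 ^ 190) with hs1 | hs1
    · rw [p2P]
      have hp := pf_pos x
      have hp' := pf_le x
      have h1 : pf x / wb x ≤ (8 * 10 ^ 6 + 1) / 1 :=
        div_le_div₀ (by norm_num) hp' (by norm_num) hw
      have h2 : pf x / wb x * sg x ≤ (8 * 10 ^ 6 + 1) / 1 * (1 / 10 ^ 190) :=
        mul_le_mul h1 hs1 hsp.le (by norm_num)
      have h3 : 0 ≤ 1.001 * (10 ^ 6) ^ 2 * Pf x := by positivity
      norm_num at *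
      linarith
    · have hxo : xo ≤ x := by
        by_contra hc
        push Not at hc
        rw [b0_zero_l hc.le, bz_zero_l (by
          have : xo ≤ 0 := by norm_num [xo]
          linarith)] at hs
        rw [hs] at hs1
        norm_num at hs1
      have hw2 := wb_G5 hxo
      apply hfin
      rw [pf_pow4, div_le_iff₀ (ta_pos x)]
      have h1 : wb x * sg x ≤ (2 * 10 ^ 24 + 2 * 10 ^ 6) * sg x :=
        mul_le_mul_of_nonneg_right hw2 hsp.le
      norm_num at *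
      linarith

lemma pf_div_le (x : ℝ) : pf x / wb x ≤ 4 * 10 ^ 24 := by
  have hp := pf_pos x
  have hw0 := wb_pos x
  rcases le_total (wb x) 1 with hw | hw
  · have h1 : pf x ≤ 2 := by
      apply le_of_pow4 (by norm_num) hp.le
      have := pf4_le x
      norm_num
      linarith
    have h2 := wb_lower x
    calc pf x / wb x ≤ 2 / (1 / (2 * 10 ^ 24)) := div_le_div₀ (by norm_num) h1 (by norm_num) h2
      _ = _ := by norm_num
  · calc pf x / wb x ≤ (8 * 10 ^ 6 + 1) / 1 := div_le_div₀ (by norm_num) (pf_le x) (by norm_num) hw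
      _ ≤ _ := by norm_num

lemma n0_pt {x : ℝ} (hx : xa + 1 ≤ x) (hx' : x ≤ 63) :
    pf x ^ 2 * Pf x ≤ 1.001 / 10 ^ 12 * b0 x + 1 / 10 ^ 24 * bz x + 2 / 10 ^ 100 := by
  have hb1 : b1 x = 0 := b1_zero_r hx
  have hbA : bA x = 0 := bA_zero_l hx'
  have hb0 := b0_nonneg x
  have hbz := bz_nonneg x
  have hsp := sg_pos x
  have hs : sg x = (2 * 10 ^ 6 - 1 / 64) * b0 x + 1 / (32 * 10 ^ 48) * bz x + 1 / 10 ^ 200 := by
    simp only [sg, hb1, hbA]; ring
  rcases le_total x (xo + 1) with h | h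
  · have hx0 : x ≤ 0 := by
      have : xo + 1 ≤ 0 := by norm_num [xo]
      linarith
    have h1 := e1_pt hx hx'
    have hw := wb_G3 h
    have h2 : 10 ^ 6 ≤ pf x := by
      apply le_of_pow4 (pf_pos x).le (by norm_num)
      have := pf4_ge_half hx0
      norm_num at *
      linarith
    have h3 : Pf x ≤ 1 / (2 * 10 ^ 30) * sg x := by
      rw [Pf, div_le_iff₀ (mul_pos (pf_pos x) (wb_pos x))]
      have h4 : (10 : ℝ) ^ 6 * (2 * 10 ^ 24) ≤ pf x * wb x :=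
        mul_le_mul h2 hw (by norm_num) (pf_pos x).le
      calc sg x = 1 / (2 * 10 ^ 30) * sg x * (10 ^ 6 * (2 * 10 ^ 24)) := by norm_num; ring
        _ ≤ _ := mul_le_mul_of_nonneg_left h4 (by positivity)
    rw [hs, bz_zero_l hx0] at h3
    rw [bz_zero_l hx0]
    norm_num at *
    linarith
  · rw [p2P, hs, b0_zero_r h]
    have h1 := pf_div_le x
    have h2 : pf x / wb x * ((2 * 10 ^ 6 - 1 / 64) * 0 + 1 / (32 * 10 ^ 48) * bz x + 1 / 10 ^ 200)
        ≤ 4 * 10 ^ 24 * ((2 * 10 ^ 6 - 1 / 64) * 0 + 1 / (32 * 10 ^ 48) * bz x + 1 / 10 ^ 200) :=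
      mul_le_mul_of_nonneg_right h1 (by positivity)
    refine h2.trans ?_
    norm_num
    linarith

lemma qA_pt {x : ℝ} (hx : -1 ≤ x) : pf x ^ 4 ≤ 256 / 255 := by
  rw [pf_pow4, div_le_iff₀ (ta_pos x)]
  have hxo : xo + 1 ≤ x := by
    have : xo + 1 ≤ -1 := by norm_num [xo]
    linarith
  have hxa : xa + 1 ≤ x := by
    have : xa ≤ xo := by norm_num [xa, xo]
    linarith
  have h0 : sg x ≤ 256 / 255 * ta x := by
    have h4 := bA_nonneg x
    have h3 := bz_nonneg x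
    simp only [sg, ta, b1_zero_r hxa, b0_zero_r hxo]
    norm_num
    linarith
  have hw := wb_le_one hx
  have hs := sg_pos x
  calc wb x * sg x ≤ 1 * sg x := mul_le_mul_of_nonneg_right hw hs.le
    _ ≤ _ := by linarith

lemma pR_pt {x : ℝ} (hx : -1 ≤ x) :
    Pf x ≤ 1 / 10 ^ 6 * bz x + 4.13 * bA x + 1 / 10 ^ 100 := by
  have hxo : xo + 1 ≤ x := by
    have : xo + 1 ≤ -1 := by norm_num [xo]
    linarith
  have hxa : xa + 1 ≤ x := by
    have : xa ≤ xo := by norm_num [xa, xo]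
    linarith
  have h4 := bA_nonneg x
  have h3 := bz_nonneg x
  have hs : sg x = 1 / (32 * 10 ^ 48) * bz x + 4 * bA x + 1 / 10 ^ 200 := by
    simp only [sg, b1_zero_r hxa, b0_zero_r hxo]; ring
  rcases le_total x 63 with h | h
  · have h1 := Pf_le x
    rw [hs, bA_zero_l h] at h1
    rw [bA_zero_l h]
    norm_num at *
    linarith
  · have hbz : bz x = 0 := bz_zero_r (by
      have : hh ≤ 63 := by norm_num [hh]
      linarith)
    have hw := wb_G7 h
    have h2 : 63 / 64 ≤ pf x := by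
      apply le_of_pow4 (pf_pos x).le (by norm_num)
      have := pf4_ge_of_63 h
      norm_num at *
      linarith
    have h5 : Pf x ≤ (64 / 63) ^ 2 * sg x := by
      rw [Pf, div_le_iff₀ (mul_pos (pf_pos x) (wb_pos x))]
      have h4 : (63 / 64 : ℝ) * (63 / 64) ≤ pf x * wb x :=
        mul_le_mul h2 hw (by norm_num) (pf_pos x).le
      have hsp := sg_pos x
      calc sg x = (64 / 63) ^ 2 * sg x * (63 / 64 * (63 / 64)) := by norm_num; ring
        _ ≤ _ := mul_le_mul_of_nonneg_left h4 (by positivity)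
    rw [hs, hbz] at h5
    rw [hbz]
    norm_num at *
    linarith

lemma qlow_pt {x : ℝ} (h : pf x ^ 4 ≤ 1 / 1000) : -1 ≤ x ∧ x ≤ 63 := by
  constructor
  · by_contra hc
    push Not at hc
    have h1 := wb_G2 hc.le
    have h2 := pf4_ge_half (x := x) (by linarith)
    norm_num at *
    linarith
  · by_contra hc
    push Not at hc
    have h1 := wb_G7 hc.le
    have h2 := pf4_ge_of_63 hc.le
    norm_num at *
    linarith

lemma p6P_le (x : ℝ) : pf x ^ 6 * Pf x ≤ 2 * 10 ^ 7 * sg x := by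
  have hp := pf_pos x
  have hw := wb_pos x
  have hs := sg_pos x
  have h1 : pf x ^ 6 * Pf x = pf x * (pf x ^ 4 / wb x) * sg x := by
    rw [Pf]; field_simp
  rw [h1]
  have h2 : pf x ^ 4 / wb x ≤ 2 := by
    rw [div_le_iff₀ hw]; exact pf4_le x
  have h3 : pf x * (pf x ^ 4 / wb x) ≤ (8 * 10 ^ 6 + 1) * 2 :=
    mul_le_mul (pf_le x) h2 (by positivity) (by norm_num)
  have h4 : pf x * (pf x ^ 4 / wb x) ≤ 2 * 10 ^ 7 := h3.trans (by norm_num)
  exact mul_le_mul_of_nonneg_right h4 hs.le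

lemma sink_pt {x : ℝ} (hx : 0 ≤ x) (hx' : x ≤ hh) : 10 ^ 28 * bz x ≤ Pf x / pf x ^ 2 := by
  have hp := pf_pos x
  have hw := wb_pos x
  have hs := sg_pos x
  have ht := ta_pos x
  have hb := bz_nonneg x
  have hbA := bA_nonneg x
  have hb1 := b1_nonneg x
  have hb0 := b0_nonneg x
  have hwu := (wb_R5 hx hx').2
  have h1 : Pf x / pf x ^ 2 = sg x / (pf x ^ 3 * wb x) := by
    rw [Pf]; field_simp
  rw [h1, le_div_iff₀ (by positivity)]
  apply le_of_pow4 hs.le (by positivity)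
  have h2 : (10 ^ 28 * bz x * (pf x ^ 3 * wb x)) ^ 4 =
      10 ^ 112 * bz x ^ 4 * wb x ^ 7 * sg x ^ 3 / ta x ^ 3 := by
    have : (10 ^ 28 * bz x * (pf x ^ 3 * wb x)) ^ 4 =
        10 ^ 112 * bz x ^ 4 * (pf x ^ 4) ^ 3 * wb x ^ 4 := by ring
    rw [this, pf_pow4]
    field_simp
  rw [h2, div_le_iff₀ (by positivity)]
  have hsg : 1 / (32 * 10 ^ 48) * bz x ≤ sg x := by
    simp only [sg]
    norm_num
    linarith
  have hta : 1 / 32 * bz x ≤ ta x := by
    simp only [ta]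
    norm_num
    linarith
  have h3 : wb x ^ 7 ≤ (3 / (2 * 10 ^ 24)) ^ 7 := pow_le_pow_left₀ hw.le hwu 7
  have h4 : (1 / 32 * bz x) ^ 3 ≤ ta x ^ 3 := pow_le_pow_left₀ (by positivity) hta 3
  have h5 : 1 / (32 * 10 ^ 48) * bz x * (1 / 32 * bz x) ^ 3 ≤ sg x * ta x ^ 3 :=
    mul_le_mul hsg h4 (by positivity) hs.le
  have hb4 : 0 ≤ bz x ^ 4 := pow_nonneg hb 4
  have h7 : (10 : ℝ) ^ 112 * (3 / (2 * 10 ^ 24)) ^ 7 ≤ 1 / (32 * 10 ^ 48) * (1 / 32) ^ 3 := by
    norm_num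
  have h8 : ∀ A C D E : ℝ, 0 ≤ A → A * C ≤ D * E ^ 3 → wb x ^ 7 ≤ C →
      A * bz x ^ 4 * wb x ^ 7 ≤ D * bz x * (E * bz x) ^ 3 := by
    intro A C D E hA h9 h10
    calc A * bz x ^ 4 * wb x ^ 7 ≤ A * bz x ^ 4 * C :=
          mul_le_mul_of_nonneg_left h10 (mul_nonneg hA hb4)
      _ = (A * C) * bz x ^ 4 := by ring
      _ ≤ (D * E ^ 3) * bz x ^ 4 := mul_le_mul_of_nonneg_right h9 hb4
      _ = _ := by ring
  have h6 : 10 ^ 112 * bz x ^ 4 * wb x ^ 7 ≤ sg x * ta x ^ 3 :=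
    (h8 _ _ _ _ (by norm_num) h7 h3).trans h5
  calc 10 ^ 112 * bz x ^ 4 * wb x ^ 7 * sg x ^ 3 ≤ (sg x * ta x ^ 3) * sg x ^ 3 :=
        mul_le_mul_of_nonneg_right h6 (by positivity)
    _ = _ := by ring

end

end Pool.Agent.Lib.MP_bfb34b_an
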