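import Mathlib
import Pool.Agent.Lib.MP_bfb34b_an.Verify

/-!
Integral estimates, and the geometric data.
-/

open Set MeasureTheory intervalIntegral
open scoped ContDiff

namespace Pool.Agent.Lib.MP_bfb34b_an

noncomputable section

lemma int_b1 (x y : ℝ) : ∫ t in x..y, b1 t =
    Real.smoothTransition ((y - xa) / 1) - Real.smoothTransition ((x - xa) / 1) :=
  integral_bump_scaled xa 1 x y
lemma int_b0 (x y : ℝ) : ∫ t in x..y, b0 t =
    Real.smoothTransition ((y - xo) / 1) - Real.smoothTransition ((x - xo) / 1) :=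
  integral_bump_scaled xo 1 x y
lemma int_bz (x y : ℝ) : ∫ t in x..y, bz t =
    Real.smoothTransition ((y - 0) / hh) - Real.smoothTransition ((x - 0) / hh) :=
  integral_bump_scaled 0 hh x y
lemma int_bA (x y : ℝ) : ∫ t in x..y, bA t =
    Real.smoothTransition ((y - 63) / 1) - Real.smoothTransition ((x - 63) / 1) :=
  integral_bump_scaled 63 1 x y

lemma int_b1_le (x y : ℝ) : ∫ t in x..y, b1 t ≤ 1 := by
  rw [int_b1]
  linarith [Real.smoothTransition.le_one ((y - xa) / 1),
    Real.smoothTransition.nonneg ((x - xa) / 1)]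
lemma int_b0_le (x y : ℝ) : ∫ t in x..y, b0 t ≤ 1 := by
  rw [int_b0]
  linarith [Real.smoothTransition.le_one ((y - xo) / 1),
    Real.smoothTransition.nonneg ((x - xo) / 1)]
lemma int_bz_le (x y : ℝ) : ∫ t in x..y, bz t ≤ 1 := by
  rw [int_bz]
  linarith [Real.smoothTransition.le_one ((y - 0) / hh),
    Real.smoothTransition.nonneg ((x - 0) / hh)]
lemma int_bA_le (x y : ℝ) : ∫ t in x..y, bA t ≤ 1 := by
  rw [int_bA]
  linarith [Real.smoothTransition.le_one ((y - 63) / 1),
    Real.smoothTransition.nonneg ((x - 63) / 1)]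

lemma ii_b1 (x y : ℝ) : IntervalIntegrable b1 volume x y :=
  b1_contDiff.continuous.intervalIntegrable _ _
lemma ii_b0 (x y : ℝ) : IntervalIntegrable b0 volume x y :=
  b0_contDiff.continuous.intervalIntegrable _ _
lemma ii_bz (x y : ℝ) : IntervalIntegrable bz volume x y :=
  bz_contDiff.continuous.intervalIntegrable _ _
lemma ii_bA (x y : ℝ) : IntervalIntegrable bA volume x y :=
  bA_contDiff.continuous.intervalIntegrable _ _

/-- Integral of a combination of bumps. -/
lemma int_comb (x y c1 c0 cz cA e : ℝ) :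
    ∫ t in x..y, (c1 * b1 t + c0 * b0 t + cz * bz t + cA * bA t + e) =
      c1 * (∫ t in x..y, b1 t) + c0 * (∫ t in x..y, b0 t) + cz * (∫ t in x..y, bz t)
        + cA * (∫ t in x..y, bA t) + (y - x) * e := by
  have i1 := (ii_b1 x y).const_mul c1
  have i0 := (ii_b0 x y).const_mul c0
  have iz := (ii_bz x y).const_mul cz
  have iA := (ii_bA x y).const_mul cA
  rw [intervalIntegral.integral_add (((i1.add i0).add iz).add iA) (by simp),
    intervalIntegral.integral_add ((i1.add i0).add iz) iA,
    intervalIntegral.integral_add (i1.add i0) iz,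
    intervalIntegral.integral_add i1 i0, intervalIntegral.integral_const_mul,
    intervalIntegral.integral_const_mul, intervalIntegral.integral_const_mul,
    intervalIntegral.integral_const_mul, intervalIntegral.integral_const, smul_eq_mul]

/-- Upper bound for integrals. -/
lemma int_le {x y c1 c0 cz cA e : ℝ} {f : ℝ → ℝ} (hf : Continuous f) (hxy : x ≤ y)
    (h1 : 0 ≤ c1) (h0 : 0 ≤ c0) (hz : 0 ≤ cz) (hA : 0 ≤ cA)
    (h : ∀ t ∈ Icc x y, f t ≤ c1 * b1 t + c0 * b0 t + cz * bz t + cA * bA t + e) :
    ∫ t in x..y, f t ≤ c1 + c0 + cz + cA + (y - x) * e := by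
  have i1 := (ii_b1 x y).const_mul c1
  have i0 := (ii_b0 x y).const_mul c0
  have iz := (ii_bz x y).const_mul cz
  have iA := (ii_bA x y).const_mul cA
  have key : ∫ t in x..y, f t ≤
      ∫ t in x..y, (c1 * b1 t + c0 * b0 t + cz * bz t + cA * bA t + e) :=
    intervalIntegral.integral_mono_on hxy (hf.intervalIntegrable _ _)
      ((((i1.add i0).add iz).add iA).add (by simp)) h
  rw [int_comb] at key
  have e1 := mul_le_mul_of_nonneg_left (int_b1_le x y) h1
  have e0 := mul_le_mul_of_nonneg_left (int_b0_le x y) h0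
  have ez := mul_le_mul_of_nonneg_left (int_bz_le x y) hz
  have eA := mul_le_mul_of_nonneg_left (int_bA_le x y) hA
  linarith

lemma pf_cont : Continuous pf := pf_contDiff.continuous
lemma Pf_cont : Continuous Pf := Pf_contDiff.continuous

theorem geom : Geom xa 64 (xa + 1) xo (-1) 63 0 hh pf Pf where
  cp := pf_cont.continuousOn
  cP := Pf_cont.continuousOn
  pp := fun x _ => pf_pos x
  pP := fun x _ => Pf_pos x
  h1 := by linarith
  h2 := by norm_num [xa, xo]
  h3 := by norm_num [xo]
  h4 := by norm_num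
  h5 := by norm_num
  h6 := by norm_num [xa]
  h7 := hh_pos.le
  h8 := by norm_num [hh]
  len := by norm_num [xa, xo]
  lenb := by norm_num
  lena := by norm_num [xa]
  q1 := fun x _ => (pf4_le' x).trans (by norm_num)
  n1 := by
    have h := int_le (x := xa) (y := xo) (f := fun t => pf t ^ 2 * Pf t)
      (c1 := 1.0005 / (64 * 10 ^ 12)) (c0 := 0) (cz := 0) (cA := 0) (e := 1 / 10 ^ 200)
      ((pf_cont.pow 2).mul Pf_cont) (by norm_num [xa, xo]) (by norm_num) le_rfl le_rfl le_rfl
      (fun t ht => by
        have := n1_pt ht.1 ht.2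
        linarith)
    refine h.trans ?_
    norm_num [xa, xo]
  n0 := by
    have h := int_le (x := xa + 1) (y := 63) (f := fun t => pf t ^ 2 * Pf t)
      (c1 := 0) (c0 := 1.001 / 10 ^ 12) (cz := 1 / 10 ^ 24) (cA := 0) (e := 2 / 10 ^ 100)
      ((pf_cont.pow 2).mul Pf_cont) (by norm_num [xa]) le_rfl (by norm_num) (by norm_num) le_rfl
      (fun t ht => by
        have := n0_pt ht.1 ht.2
        linarith)
    refine h.trans ?_
    norm_num [xa]
  e1 := fun x hx => e1_pt hx.1 hx.2
  qA := fun x hx => qA_pt hx.1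
  pR := by
    have h := int_le (x := -1) (y := 64) (f := fun t => Pf t)
      (c1 := 0) (c0 := 0) (cz := 1 / 10 ^ 6) (cA := 4.13) (e := 1 / 10 ^ 100)
      Pf_cont (by norm_num) le_rfl le_rfl (by norm_num) (by norm_num)
      (fun t ht => by
        have := pR_pt ht.1
        linarith)
    refine h.trans ?_
    norm_num
  qlow := fun x _ hx => qlow_pt hx
  sink := by
    have h1 : ∫ t in xa..64, pf t ^ 6 * Pf t ≤ 10 ^ 15 := by
      have h := int_le (x := xa) (y := 64) (f := fun t => pf t ^ 6 * Pf t)
        (c1 := 2 * 10 ^ 7 * (4 * 10 ^ 6)) (c0 := 2 * 10 ^ 7 * (2 * 10 ^ 6 - 1 / 64))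
        (cz := 2 * 10 ^ 7 * (1 / (32 * 10 ^ 48))) (cA := 2 * 10 ^ 7 * 4)
        (e := 2 * 10 ^ 7 * (1 / 10 ^ 200))
        ((pf_cont.pow 6).mul Pf_cont) (by norm_num [xa]) (by norm_num) (by norm_num) (by norm_num)
        (by norm_num)
        (fun t ht => by
          have := p6P_le t
          refine this.trans (le_of_eq ?_)
          simp only [sg]
          ring)
      refine h.trans ?_
      norm_num [xa]
    have h2 : (10 : ℝ) ^ 28 ≤ ∫ t in (0 : ℝ)..hh, Pf t / pf t ^ 2 := by
      have h3 : ∫ t in (0 : ℝ)..hh, 10 ^ 28 * bz t ≤ ∫ t in (0 : ℝ)..hh, Pf t / pf t ^ 2 := by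
        apply intervalIntegral.integral_mono_on hh_pos.le
        · exact (ii_bz _ _).const_mul _
        · exact (Pf_cont.div (pf_cont.pow 2)
            fun x => (pow_pos (pf_pos x) 2).ne').intervalIntegrable _ _
        · intro t ht
          exact sink_pt ht.1 ht.2
      rw [intervalIntegral.integral_const_mul, int_bz, Real.smoothTransition.one_of_one_le
        (by rw [sub_zero, div_self hh_pos.ne']), Real.smoothTransition.zero_of_nonpos
        (by simp)] at h3
      linarith
    norm_num at *
    linarith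

/-- The lower bound for the mass at exponent `1/4`. -/
lemma low_pt (x : ℝ) : 0.499 * b1 x + 1.99 * b0 x + 3.99 * bA x ≤ Pf x * wb x := by
  have hp := pf_pos x
  have hw := wb_pos x
  have hs := sg_pos x
  have ht := ta_pos x
  have h1 := b1_nonneg x
  have h2 := b0_nonneg x
  have h3 := bz_nonneg x
  have h4 := bA_nonneg x
  have hu : Pf x * wb x = sg x / pf x := by
    rw [Pf]; field_simp
  rw [hu, le_div_iff₀ hp]
  -- it suffices to compare fourth powers
  have key : ∀ A C s t : ℝ, 0 ≤ A → 0 ≤ s → 0 ≤ t → A ^ 4 * wb x ≤ s ^ 3 * t → s ≤ sg x →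
      t ≤ ta x → A * pf x ≤ sg x := by
    intro A C s t hA hs0 ht0 hAw hs1 ht1
    apply le_of_pow4 hs.le (by positivity)
    have e1 : (A * pf x) ^ 4 = A ^ 4 * wb x * sg x / ta x := by
      rw [mul_pow, pf_pow4]; ring
    rw [e1, div_le_iff₀ ht]
    have e2 : s ^ 3 * t ≤ sg x ^ 3 * ta x :=
      mul_le_mul (pow_le_pow_left₀ hs0 hs1 3) ht1 ht0 (by positivity)
    calc A ^ 4 * wb x * sg x ≤ (sg x ^ 3 * ta x) * sg x :=
          mul_le_mul_of_nonneg_right (hAw.trans e2) hs.le
      _ = _ := by ring
  have key2 : ∀ c β s t : ℝ, 0 ≤ c → 0 ≤ β → 0 ≤ s → 0 ≤ t → c ^ 4 * wb x ≤ s ^ 3 * t →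
      s * β ≤ sg x → t * β ≤ ta x → (c * β) * pf x ≤ sg x := by
    intro c β s t hc hβ hs0 ht0 hcw hs1 ht1
    apply key (c * β) 0 (s * β) (t * β) (by positivity) (by positivity) (by positivity) _ hs1 ht1
    calc (c * β) ^ 4 * wb x = (c ^ 4 * wb x) * β ^ 4 := by ring
      _ ≤ (s ^ 3 * t) * β ^ 4 := mul_le_mul_of_nonneg_right hcw (by positivity)
      _ = _ := by ring
  rcases le_total x (xa + 1) with h | h
  · have hb0 : b0 x = 0 := b0_zero_l (by
      have : xa + 1 ≤ xo := by norm_num [xa, xo]
      linarith)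
    have hbA : bA x = 0 := bA_zero_l (by
      have : xa + 1 ≤ 63 := by norm_num [xa]
      linarith)
    have e := key2 0.499 (b1 x) (4 * 10 ^ 6) (2 * 10 ^ 6) (by norm_num) h1 (by norm_num)
      (by norm_num) (by
        have := wb_upper x
        norm_num at *
        linarith) (by
        simp only [sg]
        norm_num
        linarith) (by
        simp only [ta]
        norm_num
        linarith)
    rw [hb0, hbA]
    linarith
  rcases le_total x (xo + 1) with h' | h'
  · have hb1 : b1 x = 0 := b1_zero_r h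
    have hbA : bA x = 0 := bA_zero_l (by
      have : xo + 1 ≤ 63 := by norm_num [xo]
      linarith)
    rw [hb1, hbA]
    rcases le_total x xo with h'' | h''
    · rw [b0_zero_l h'']
      linarith
    have e := key2 1.99 (b0 x) (2 * 10 ^ 6 - 1 / 64) (4 * 10 ^ 6 - 1 / 32) (by norm_num) h2
      (by norm_num) (by norm_num) (by
        have := wb_G5 h''
        norm_num at *
        linarith) (by
        simp only [sg]
        norm_num
        linarith) (by
        simp only [ta]
        norm_num
        linarith)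
    linarith
  · have hb1 : b1 x = 0 := b1_zero_r h
    have hb0 : b0 x = 0 := b0_zero_r h'
    rw [hb1, hb0]
    rcases le_total x 63 with h'' | h''
    · rw [bA_zero_l h'']
      linarith
    have e := key2 3.99 (bA x) 4 (4 - 1 / 64) (by norm_num) h4
      (by norm_num) (by norm_num) (by
        have := wb_le_one (x := x) (by linarith)
        norm_num at *
        linarith) (by
        simp only [sg]
        norm_num
        linarith) (by
        simp only [ta]
        norm_num
        linarith)
    linarith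

theorem mass_lower : 6.4 ≤ ∫ t in xa..64, Pf t * wb t := by
  have h1 : ∫ t in xa..64, (0.499 * b1 t + 1.99 * b0 t + 0 * bz t + 3.99 * bA t + 0) ≤
      ∫ t in xa..64, Pf t * wb t := by
    apply intervalIntegral.integral_mono_on (by norm_num [xa])
    · exact (((((ii_b1 _ _).const_mul _).add ((ii_b0 _ _).const_mul _)).add
        ((ii_bz _ _).const_mul _)).add ((ii_bA _ _).const_mul _)).add (by simp)
    · exact (Pf_cont.mul wb_contDiff.continuous).intervalIntegrable _ _
    · intro t _
      have := low_pt t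
      linarith
  rw [int_comb, int_b1, int_b0, int_bA] at h1
  rw [Real.smoothTransition.one_of_one_le (by norm_num [xa]),
    Real.smoothTransition.zero_of_nonpos (by norm_num : (xa - xa) / 1 ≤ 0),
    Real.smoothTransition.one_of_one_le (by norm_num [xo]),
    Real.smoothTransition.zero_of_nonpos (by norm_num [xa, xo] : (xa - xo) / 1 ≤ 0),
    Real.smoothTransition.one_of_one_le (by norm_num),
    Real.smoothTransition.zero_of_nonpos (by norm_num [xa] : (xa - 63) / 1 ≤ 0)] at h1
  norm_num at h1 ⊢
  linarith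

end

end Pool.Agent.Lib.MP_bfb34b_an
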